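import Mathlib
import Pool.Agent.V7H82.TG.Kern

/-!
# Invariant kernels with short relations

`M` is an integral symmetric kernel on a finite set `I` (the pairs of conjugate embeddings in a class)
with constant diagonal and, up to signs, constant values outside the diagonal. Its square has the same
property, with the same signs. If there is a short linear relation between the rows, the numbers
satisfy the relations of an equiangular tight frame with a small integral angle.
-/

set_option linter.unusedSectionVars false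

namespace Pool.Agent.V7H82.LR

open Finset Module

/-- A kernel of rank `r` whose squares are `β ^ 2` on the diagonal and `α ^ 2` outside has at most
`r (r + 1) / 2` rows. -/
theorem gerzon {I : Type*} [Fintype I] [DecidableEq I] (M : Matrix I I ℚ) {α β : ℚ}
    (hlt : α ^ 2 < β ^ 2)
    (hd : ∀ i, M i i ^ 2 = β ^ 2) (ho : ∀ i j, i ≠ j → M i j ^ 2 = α ^ 2) {r : ℕ}
    (U : I → Fin r → ℚ) (V : Fin r → I → ℚ) (hM : ∀ i j, M i j = ∑ k, U i k * V k j) :
    Fintype.card I ≤ (r + 1).choose 2 := by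
  classical
  by_contra hcon
  push Not at hcon
  let W : (I → ℚ) →ₗ[ℚ] (Sym2 (Fin r) → ℚ) :=
    { toFun := fun w s => ∑ j, (Sym2.lift ⟨fun k l => V k j * V l j, fun _ _ => mul_comm _ _⟩ s) * w j
      map_add' := fun w w' => by
        funext s
        simp only [Pi.add_apply, mul_add, Finset.sum_add_distrib]
      map_smul' := fun a w => by
        funext s
        simp only [Pi.smul_apply, smul_eq_mul, RingHom.id_apply, Finset.mul_sum]
        exact Finset.sum_congr rfl fun j _ => by ring }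
  have hker : LinearMap.ker W ≠ ⊥ := by
    apply LinearMap.ker_ne_bot_of_finrank_lt
    rw [finrank_fintype_fun_eq_card, finrank_fintype_fun_eq_card, Sym2.card, Fintype.card_fin]
    exact hcon
  obtain ⟨w, hw, hw0⟩ := (Submodule.ne_bot_iff _).1 hker
  have hWs : ∀ k l : Fin r, ∑ j, V k j * V l j * w j = 0 := by
    intro k l
    have h1 := congrFun (LinearMap.mem_ker.1 hw) s(k, l)
    exact h1
  have hN : ∀ i, ∑ j, M i j ^ 2 * w j = 0 := by
    intro i
    have h1 : ∀ j, M i j ^ 2 * w j = ∑ k, ∑ l, U i k * U i l * (V k j * V l j * w j) := by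
      intro j
      rw [hM, sq, Finset.sum_mul_sum, Finset.sum_mul]
      refine Finset.sum_congr rfl fun k _ => ?_
      rw [Finset.sum_mul]
      exact Finset.sum_congr rfl fun l _ => by ring
    rw [Finset.sum_congr rfl fun j _ => h1 j, Finset.sum_comm]
    refine Finset.sum_eq_zero fun k _ => ?_
    rw [Finset.sum_comm]
    refine Finset.sum_eq_zero fun l _ => ?_
    rw [← Finset.mul_sum, hWs, mul_zero]
  have hN' : ∀ i, (β ^ 2 - α ^ 2) * w i = - (α ^ 2 * ∑ j, w j) := by
    intro i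
    have h1 := hN i
    rw [← Finset.add_sum_erase _ _ (Finset.mem_univ i), hd] at h1
    have h2 : ∑ j ∈ Finset.univ.erase i, M i j ^ 2 * w j =
        α ^ 2 * ∑ j ∈ Finset.univ.erase i, w j := by
      rw [Finset.mul_sum]
      exact Finset.sum_congr rfl fun j hj => by rw [ho i j (Finset.ne_of_mem_erase hj).symm]
    have h3 := Finset.add_sum_erase (Finset.univ : Finset I) w (Finset.mem_univ i)
    rw [h2] at h1
    linear_combination h1 - α ^ 2 * h3
  have hS : ∑ j, w j = 0 := by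
    have h1 : ∑ i, (β ^ 2 - α ^ 2) * w i = ∑ _i : I, - (α ^ 2 * ∑ j, w j) :=
      Finset.sum_congr rfl fun i _ => hN' i
    rw [← Finset.mul_sum, Finset.sum_const, Finset.card_univ, nsmul_eq_mul] at h1
    have h2 : ((β ^ 2 - α ^ 2) + (Fintype.card I : ℚ) * α ^ 2) * ∑ j, w j = 0 := by
      linear_combination h1
    refine (mul_eq_zero.1 h2).resolve_left ?_
    have h3 : (0 : ℚ) < β ^ 2 - α ^ 2 := by linarith
    positivity
  apply hw0
  funext i
  have h1 := hN' i
  rw [hS] at h1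
  simp only [Pi.zero_apply]
  have h3 : β ^ 2 - α ^ 2 ≠ 0 := by linarith
  have h4 : (β ^ 2 - α ^ 2) * w i = 0 := by rw [h1]; ring
  exact (mul_eq_zero.1 h4).resolve_left h3

/-- Integrality of the angle. -/
theorem dvd_of_quad {α β c n : ℤ} (hα : 0 < α) (h : β ^ 2 + c * (α * β) = n * α ^ 2) : α ∣ β := by
  have hg : 0 < Int.gcd α β := Int.gcd_pos_of_ne_zero_left _ hα.ne'
  obtain ⟨a, b, hab, ha, hb⟩ := Int.exists_gcd_one hg
  have hg0 : (Int.gcd α β : ℤ) ≠ 0 := by exact_mod_cast hg.ne'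
  generalize (Int.gcd α β : ℤ) = g at ha hb hg0
  have h1 : b * b = a * (n * a - c * b) := by
    have h2 : g ^ 2 * (b * b) = g ^ 2 * (a * (n * a - c * b)) := by
      rw [ha, hb] at h
      linear_combination h
    exact mul_left_cancel₀ (pow_ne_zero 2 hg0) h2
  have hcop : IsCoprime a b := Int.isCoprime_iff_gcd_eq_one.2 hab
  have h3 : a ∣ b * b := ⟨_, h1⟩
  have h4 : a ∣ b := hcop.dvd_of_dvd_mul_left h3
  rw [ha, hb]
  exact mul_dvd_mul_right h4 _

/-- **Short relations of invariant kernels.** -/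
theorem frame {I : Type*} [Fintype I] [DecidableEq I] {M : I → I → ℤ}
    (hsymm : ∀ i j, M i j = M j i) {α β : ℤ} (hα : 0 < α) (hαβ : α < β) (hd : ∀ i, M i i = β)
    (ho : ∀ i j, i ≠ j → |M i j| = α)
    (hhom : ∀ i j i' j', i ≠ j → i' ≠ j' → ∃ ε : ℤ, (ε = 1 ∨ ε = -1) ∧ M i j = ε * M i' j' ∧
      ∑ k, M i k * M k j = ε * ∑ k, M i' k * M k j')
    {u : I → ℤ} {i₀ : I} (hu0 : u i₀ ≠ 0) (hu : ∀ j, ∑ i, u i * M i j = 0) {r : ℕ}
    (hr : ∑ i, |u i| ≤ 2 * r) :
    1 < Fintype.card I ∧ ∃ θ R : ℕ, 2 ≤ θ ∧ θ < 2 * r ∧ θ ∣ Fintype.card I - 1 ∧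
      R * (θ ^ 2 + (Fintype.card I - 1)) = Fintype.card I * θ ^ 2 ∧
      2 * Fintype.card I ≤ R * (R + 1) := by
  classical
  have hβ : 0 < β := hα.trans hαβ
  -- another element
  obtain ⟨j₁, hj₁⟩ : ∃ j₁, j₁ ≠ i₀ := by
    by_contra hcon
    push Not at hcon
    have h1 := hu i₀
    rw [Finset.sum_eq_single i₀ (fun k _ hk => absurd (hcon k) hk)
      (fun h => absurd (Finset.mem_univ _) h), hd] at h1
    rcases mul_eq_zero.1 h1 with h | h
    · exact hu0 h
    · omega
  have hcard : 2 ≤ Fintype.card I := by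
    have h1 : ({i₀, j₁} : Finset I).card = 2 := Finset.card_pair hj₁.symm
    rw [← h1]
    exact Finset.card_le_univ _
  set b := Fintype.card I with hb
  have hcast : ((b - 1 : ℕ) : ℤ) = (b : ℤ) - 1 := by
    rw [Nat.cast_sub (by omega)]
    rfl
  -- the bound for the quotient
  have hbound : β ≤ α * (2 * r - 1) := by
    obtain ⟨j, -, hj⟩ := Finset.exists_max_image (Finset.univ : Finset I) (fun i => |u i|)
      ⟨i₀, Finset.mem_univ _⟩
    have h1 : 1 ≤ |u j| := by
      have h2 := hj i₀ (Finset.mem_univ _)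
      have h3 : 0 < |u i₀| := abs_pos.2 hu0
      omega
    have h2 := hu j
    rw [← Finset.add_sum_erase _ _ (Finset.mem_univ j), hd] at h2
    have h3 : |u j * β| ≤ α * ∑ i ∈ Finset.univ.erase j, |u i| := by
      have h4 : u j * β = - ∑ i ∈ Finset.univ.erase j, u i * M i j := by linarith
      rw [h4, abs_neg]
      refine (Finset.abs_sum_le_sum_abs _ _).trans ?_
      rw [Finset.mul_sum]
      refine le_of_eq (Finset.sum_congr rfl fun i hi => ?_)
      rw [abs_mul, ho i j (Finset.ne_of_mem_erase hi), mul_comm]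
    have h4 := Finset.add_sum_erase (Finset.univ : Finset I) (fun i => |u i|) (Finset.mem_univ j)
    have h5 : ∑ i ∈ Finset.univ.erase j, |u i| ≤ 2 * r - |u j| := by linarith
    rw [abs_mul, abs_of_pos hβ] at h3
    have h6 : |u j| * β ≤ α * (2 * r - |u j|) := h3.trans (mul_le_mul_of_nonneg_left h5 hα.le)
    have h7 : α * (2 * r - |u j|) ≤ |u j| * (α * (2 * r - 1)) := by
      have h8 : (0 : ℤ) ≤ 2 * r * (|u j| - 1) := by
        have : (0 : ℤ) ≤ |u j| - 1 := by omega
        positivity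
      nlinarith
    exact le_of_mul_le_mul_left (h6.trans h7) (by omega)
  -- the square
  have hself : ∀ i, ∑ k, M i k * M k i = β ^ 2 + ((b : ℤ) - 1) * α ^ 2 := by
    intro i
    rw [← Finset.add_sum_erase _ _ (Finset.mem_univ i), hd]
    have h1 : ∑ k ∈ Finset.univ.erase i, M i k * M k i =
        ∑ _k ∈ Finset.univ.erase i, α ^ 2 := by
      refine Finset.sum_congr rfl fun k hk => ?_
      rw [hsymm k i, ← ho i k (Finset.ne_of_mem_erase hk).symm, sq_abs]
      ring
    rw [h1, Finset.sum_const, Finset.card_erase_of_mem (Finset.mem_univ i), Finset.card_univ,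
      nsmul_eq_mul, ← hb, hcast]
    ring
  have hM0 : M i₀ j₁ ≠ 0 := by
    intro h
    have h1 := ho i₀ j₁ hj₁.symm
    rw [h, abs_zero] at h1
    omega
  set κ : ℚ := ((∑ k, M i₀ k * M k j₁ : ℤ) : ℚ) / (M i₀ j₁ : ℚ) with hκ
  have hM0q : (M i₀ j₁ : ℚ) ≠ 0 := by exact_mod_cast hM0
  have hκ0 : ((∑ k, M i₀ k * M k j₁ : ℤ) : ℚ) = κ * M i₀ j₁ := by
    rw [hκ]
    field_simp
  have hoff : ∀ i j, i ≠ j → ((∑ k, M i k * M k j : ℤ) : ℚ) = κ * M i j := by
    intro i j hij
    obtain ⟨ε, -, h1, h2⟩ := hhom i j i₀ j₁ hij hj₁.symm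
    rw [h1, h2, Int.cast_mul, Int.cast_mul, hκ0]
    ring
  have hD : ((β ^ 2 + ((b : ℤ) - 1) * α ^ 2 : ℤ) : ℚ) = κ * β := by
    have h1 : ∑ i, (u i : ℚ) * ((∑ k, M i k * M k i₀ : ℤ) : ℚ) = 0 := by
      have h2 : ∑ i, u i * (∑ k, M i k * M k i₀) = 0 := by
        calc ∑ i, u i * (∑ k, M i k * M k i₀) = ∑ i, ∑ k, u i * M i k * M k i₀ :=
              Finset.sum_congr rfl fun i _ => by
                rw [Finset.mul_sum]
                exact Finset.sum_congr rfl fun k _ => by ring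
          _ = ∑ k, (∑ i, u i * M i k) * M k i₀ := by
              rw [Finset.sum_comm]
              exact Finset.sum_congr rfl fun k _ => by rw [Finset.sum_mul]
          _ = 0 := Finset.sum_eq_zero fun k _ => by rw [hu k, zero_mul]
      exact_mod_cast h2
    have h3 : ∑ i, (u i : ℚ) * (κ * M i i₀) = 0 := by
      have h4 : ∑ i, (u i : ℚ) * (κ * M i i₀) = κ * ((∑ i, u i * M i i₀ : ℤ) : ℚ) := by
        push_cast
        rw [Finset.mul_sum]
        exact Finset.sum_congr rfl fun i _ => by ring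
      rw [h4, hu i₀]
      simp
    rw [← Finset.add_sum_erase _ _ (Finset.mem_univ i₀), hself] at h1
    rw [← Finset.add_sum_erase _ _ (Finset.mem_univ i₀), hd] at h3
    have h5 : ∑ i ∈ Finset.univ.erase i₀, (u i : ℚ) * ((∑ k, M i k * M k i₀ : ℤ) : ℚ) =
        ∑ i ∈ Finset.univ.erase i₀, (u i : ℚ) * (κ * M i i₀) :=
      Finset.sum_congr rfl fun i hi => by rw [hoff i i₀ (Finset.ne_of_mem_erase hi)]
    rw [h5] at h1
    have h6 : (u i₀ : ℚ) ≠ 0 := by exact_mod_cast hu0
    apply mul_left_cancel₀ h6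
    linarith
  have hDpos : (0 : ℚ) < ((β ^ 2 + ((b : ℤ) - 1) * α ^ 2 : ℤ) : ℚ) := by
    have h1 : 0 < β ^ 2 + ((b : ℤ) - 1) * α ^ 2 := by
      have h2 : (0 : ℤ) ≤ (b : ℤ) - 1 := by omega
      positivity
    exact_mod_cast h1
  have hβq : (0 : ℚ) < β := by exact_mod_cast hβ
  have hαq : (0 : ℚ) < α := by exact_mod_cast hα
  have hκpos : 0 < κ := by
    rw [hD] at hDpos
    exact pos_of_mul_pos_left hDpos hβq.le
  -- the trace
  let N : Matrix I I ℚ := fun i j => (M i j : ℚ)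
  have hN : N * N = κ • N := by
    ext i j
    rw [Matrix.mul_apply, Matrix.smul_apply, smul_eq_mul]
    have h1 : ∑ k, N i k * N k j = ((∑ k, M i k * M k j : ℤ) : ℚ) := by
      push_cast
      rfl
    rw [h1]
    by_cases hij : i = j
    · subst hij
      rw [hself, hD]
      change _ = κ * (M i i : ℚ)
      rw [hd]
    · exact hoff i j hij
  have htr := Pool.Agent.V7H82.TG.Kern.trace_rank N hκpos.ne' hN
  have htr' : N.trace = (b : ℚ) * β := by
    unfold Matrix.trace
    have h1 : ∀ i, N.diag i = (β : ℚ) := by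
      intro i
      change (M i i : ℚ) = β
      rw [hd]
    rw [Finset.sum_congr rfl fun i _ => h1 i, Finset.sum_const, Finset.card_univ, nsmul_eq_mul]
  set R := finrank ℚ (LinearMap.range (Matrix.toLin' N)) with hR
  have hRD : (R : ℤ) * (β ^ 2 + ((b : ℤ) - 1) * α ^ 2) = b * β ^ 2 := by
    have h1 : (R : ℚ) * ((β ^ 2 + ((b : ℤ) - 1) * α ^ 2 : ℤ) : ℚ) = b * (β : ℚ) ^ 2 := by
      rw [hD]
      rw [htr'] at htr
      linear_combination (-(β : ℚ)) * htr
    exact_mod_cast h1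
  -- the signs
  have hsg : ∀ i j, i ≠ j → ∃ s : ℤ, (s = 1 ∨ s = -1) ∧ M i j = α * s := by
    intro i j hij
    rcases (abs_eq hα.le).1 (ho i j hij) with h | h
    · exact ⟨1, Or.inl rfl, by rw [h, mul_one]⟩
    · exact ⟨-1, Or.inr rfl, by rw [h]; ring⟩
  choose! sg hsg1 hsg2 using hsg
  set c : ℤ := ∑ k ∈ (Finset.univ.erase i₀).erase j₁, sg i₀ k * sg k j₁ with hc
  have hsum : ∑ k, M i₀ k * M k j₁ = 2 * β * M i₀ j₁ + α ^ 2 * c := by
    rw [← Finset.add_sum_erase _ _ (Finset.mem_univ i₀), hd,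
      ← Finset.add_sum_erase _ _ (Finset.mem_erase.2 ⟨hj₁, Finset.mem_univ j₁⟩), hd, hc,
      Finset.mul_sum]
    have h1 : ∑ k ∈ (Finset.univ.erase i₀).erase j₁, M i₀ k * M k j₁ =
        ∑ k ∈ (Finset.univ.erase i₀).erase j₁, α ^ 2 * (sg i₀ k * sg k j₁) := by
      refine Finset.sum_congr rfl fun k hk => ?_
      rw [Finset.mem_erase, Finset.mem_erase] at hk
      rw [hsg2 i₀ k hk.2.1.symm, hsg2 k j₁ hk.1]
      ring
    rw [h1]
    ring
  have hs2 : sg i₀ j₁ = 1 ∨ sg i₀ j₁ = -1 := hsg1 i₀ j₁ hj₁.symm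
  have h1 : M i₀ j₁ = α * sg i₀ j₁ := hsg2 i₀ j₁ hj₁.symm
  generalize sg i₀ j₁ = s at hs2 h1
  have hs1 : s * s = 1 := by
    rcases hs2 with h | h <;> rw [h] <;> norm_num
  have hquad : β ^ 2 + (c * s) * (α * β) = ((b : ℤ) - 1) * α ^ 2 := by
    have h2 := hκ0
    rw [hsum, h1] at h2
    push_cast at h2
    have hs1q : (s : ℚ) * s = 1 := by exact_mod_cast hs1
    have h3 : κ = 2 * β + α * (c * s) := by
      have h4 : (α : ℚ) * s ≠ 0 := by
        have h5 := hM0q
        rw [h1] at h5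
        push_cast at h5
        exact h5
      apply mul_right_cancel₀ h4
      linear_combination (-1 : ℚ) * h2 - (α : ℚ) ^ 2 * c * hs1q
    have h5 : ((β ^ 2 + (c * s) * (α * β) : ℤ) : ℚ) = ((((b : ℤ) - 1) * α ^ 2 : ℤ) : ℚ) := by
      have h6 := hD
      rw [h3] at h6
      push_cast at h6 ⊢
      linear_combination (-1 : ℚ) * h6
    exact_mod_cast h5
  obtain ⟨θ, hθ⟩ := dvd_of_quad hα hquad
  have hθ2 : 2 ≤ θ := by
    by_contra hcon
    have h2 : θ ≤ 1 := by omega
    have h3 : α * θ ≤ α * 1 := mul_le_mul_of_nonneg_left h2 hα.le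
    rw [← hθ, mul_one] at h3
    omega
  obtain ⟨t, rfl⟩ : ∃ t : ℕ, θ = t := ⟨θ.toNat, by omega⟩
  have hα2 : α ^ 2 ≠ 0 := pow_ne_zero 2 hα.ne'
  have hlin : (t : ℤ) * (t + c * s) = (b : ℤ) - 1 := by
    apply mul_left_cancel₀ hα2
    rw [hθ] at hquad
    linear_combination hquad
  have hRt : (R : ℤ) * (t ^ 2 + ((b : ℤ) - 1)) = b * t ^ 2 := by
    apply mul_left_cancel₀ hα2
    rw [hθ] at hRD
    linear_combination hRD
  refine ⟨by omega, t, R, by omega, ?_, ?_, ?_, ?_⟩
  · have h2 : α * t ≤ α * (2 * r - 1) := by rw [← hθ]; exact hbound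
    have h3 := le_of_mul_le_mul_left h2 hα
    omega
  · have h2 : (t : ℤ) ∣ ((b - 1 : ℕ) : ℤ) := by
      rw [hcast, ← hlin]
      exact dvd_mul_right _ _
    exact_mod_cast h2
  · have h2 : ((R * (t ^ 2 + (b - 1)) : ℕ) : ℤ) = ((b * t ^ 2 : ℕ) : ℤ) := by
      push_cast [hcast]
      exact hRt
    exact_mod_cast h2
  · obtain ⟨U, V, hUV⟩ := Pool.Agent.V7H82.TG.Kern.exists_factor N (r := R) rfl
    have h2 := gerzon N (α := α) (β := β) (by
        have : (α : ℚ) < β := by exact_mod_cast hαβ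
        nlinarith) (fun i => by
        change (M i i : ℚ) ^ 2 = _
        rw [hd]) (fun i j hij => by
        change (M i j : ℚ) ^ 2 = _
        have h3 := ho i j hij
        have h4 : (M i j) ^ 2 = α ^ 2 := by rw [← h3, sq_abs]
        exact_mod_cast h4) U V hUV
    rw [Nat.choose_two_right, ← hb] at h2
    have h3 : (R + 1) * (R + 1 - 1) / 2 * 2 ≤ (R + 1) * (R + 1 - 1) := Nat.div_mul_le_self _ _
    have h4 : (R + 1) * (R + 1 - 1) = R * (R + 1) := by
      rw [Nat.add_sub_cancel, mul_comm]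
    rw [h4] at h2 h3
    omega

end Pool.Agent.V7H82.LR
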