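import Pool.Agent.N202.QR.Defs

/-!
# Linked Frobenius eigenvalues, classes with many pairs, and positivity in small codimensions:
definitions
-/

set_option autoImplicit false

namespace Pool.Agent.V7H82.LR

open NumberField Module
open Pool.Agent.W495.TA Pool.Agent.TH117.BL Pool.Agent.TH117.PO Pool.Agent.N202.QR

/-- The number `b` is exceptional (for the codimensions up to `r`): `b > 1` and there are natural
numbers `θ`, `R` with `2 ≤ θ < 2 r`, `θ ∣ b - 1`, `R (θ ^ 2 + b - 1) = b θ ^ 2` and
`b ≤ R (R + 1) / 2`. (These are necessary conditions for `b` lines in a space of dimension `R`, any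
two of them with the angle `arccos (1 / θ)`, which form a tight frame.) -/
def HasFrame (r b : ℕ) : Prop :=
  1 < b ∧ ∃ θ R : ℕ, 2 ≤ θ ∧ θ < 2 * r ∧ θ ∣ b - 1 ∧ R * (θ ^ 2 + (b - 1)) = b * θ ^ 2 ∧
    2 * b ≤ R * (R + 1)

variable {p : ℕ} [Fact p.Prime] {ν : PadicAlgCl p ≃+* ℂ} {Z : RedAV p ν}

/-- The embedding `w` followed by the automorphism `σ` of the complex numbers. -/
def moveE (σ : ℂ ≃+* ℂ) (w : Emb Z) : Emb Z := ⟨w.1, (σ : ℂ →+* ℂ).comp w.2⟩

/-- The embeddings are equal or complex conjugate. -/
def SamePairE (w x : Emb Z) : Prop := w = x ∨ w = conjE x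

/-- Two embeddings are *flipped*: some automorphism of the complex numbers fixes one of them and
conjugates the other, or moves `w` to `x` and `x` to the conjugate of `w`. -/
def IsFlipped (w x : Emb Z) : Prop :=
  ∃ σ : ℂ ≃+* ℂ, (moveE σ w = w ∧ moveE σ x = conjE x) ∨ (moveE σ w = conjE w ∧ moveE σ x = x) ∨
    (moveE σ w = x ∧ moveE σ x = conjE w)

/-- The equivalence relation on the complex embeddings of the CM fields of the factors of `Z`
generated by not being flipped. -/
def IsLinked : Emb Z → Emb Z → Prop := Relation.EqvGen fun w x => ¬ IsFlipped w x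

/-- The class of `w` consists of `b` pairs of conjugate embeddings. -/
def HasPairs (w : Emb Z) (b : ℕ) : Prop := Nat.card {x : Emb Z // IsLinked w x} = 2 * b

/-- Any two pairs of conjugate embeddings in the class of `w` can be moved to any two others. -/
def AnyTwoPairs (w : Emb Z) : Prop :=
  ∀ x y x' y' : Emb Z, IsLinked w x → IsLinked w y → IsLinked w x' → IsLinked w y' →
    ¬ SamePairE y x → ¬ SamePairE y' x' → ∃ σ : ℂ ≃+* ℂ,
      (SamePairE (moveE σ x) x' ∧ SamePairE (moveE σ y) y') ∨
      (SamePairE (moveE σ x) y' ∧ SamePairE (moveE σ y) x')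

/-- The class of `w` contains only embeddings of the CM field of one factor, it consists of `b` pairs
and any two pairs can be moved to any two others, where `b` is not exceptional; or `b > 2 r` and `b`
is prime, or odd and any two pairs can be moved to any two others. -/
def IsBigClass (r : ℕ) (w : Emb Z) : Prop :=
  (∀ x : Emb Z, IsLinked w x → x.1 = w.1) ∧ ∃ b : ℕ, HasPairs w b ∧
    ((AnyTwoPairs w ∧ ¬ HasFrame r b) ∨ (2 * r < b ∧ (b.Prime ∨ (AnyTwoPairs w ∧ Odd b))))

/-- The embeddings in the class of `w` belong to the factors in a good set (for example to one factor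
of dimension at most five). -/
def IsSmallClass (w : Emb Z) : Prop :=
  ∃ S : Set Z.X.I, IsGoodSet Z S ∧ ∀ x : Emb Z, IsLinked w x → x.1 ∈ S

/-- Each class of linked embeddings is big or small. -/
def HasGoodClasses (r : ℕ) (Z : RedAV p ν) : Prop := ∀ w : Emb Z, IsBigClass r w ∨ IsSmallClass w

/-- The standard conjecture of Hodge type for `Y` in the codimensions `s ≤ r`: for all polarizations
given by `α` (compatible with the complex multiplications of the lifting) and all primitive classes
`z ≠ 0` of algebraic cycles of codimension `s`, `dim Y = 2 s + m`, the number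
`(-1)^s z ∪ z ∪ E^m` is positive. -/
def HodgeTypeUpTo (r : ℕ) (Ω : Type) [Field Ω] [CharZero Ω]
    (C : (Y : RedAV p ν) → (κ : Type) → ((TM Ω Y) [⋀^κ]→ₗ[Ω] Ω) → Prop) (Y : RedAV p ν) : Prop :=
  ∀ (α : Y.X.H1), IsPolar Y.X α → ∀ s m : ℕ, s ≤ r → 2 * (2 * s + m) = finrank ℚ Y.X.H1 →
    ∀ z : (TM Ω Y) [⋀^Fin s × Fin 2]→ₗ[Ω] Ω, C Y (Fin s × Fin 2) z → z ≠ 0 → IsPrim α m z →
      IsPosClass α m z

end Pool.Agent.V7H82.LR
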