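import Mathlib
import Pool.Agent.V7H82.HT.Gen
import Pool.Agent.V7H82.LR.Frame
import Pool.Agent.V7H82.LR.Stm

/-!
# Short relations in a class of linked points

A group acts on a finite set with an involution without fixed points, `W` is an odd function. The
restriction of a short relation between the translates of `W` to a class whose pairs are permuted
doubly homogeneously is a combination of relations of length at most two.
-/

set_option linter.unusedSectionVars false
set_option linter.unusedVariables false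

namespace Pool.Agent.V7H82.LR

open Pool.Agent.TH127.SC Pool.Agent.V7H82.TT Pool.Agent.V7H82.HT MulAction
  Pool.Agent.V7H82.TG

section reps

variable {X : Type*} [Fintype X] {c : X → X} (hc : ∀ x, c (c x) = x) (hcx : ∀ x, c x ≠ x)
  {I : Type*} [Fintype I] {t : I → X} (ht : ∀ i j, i ≠ j → Kern.NP c (t i) (t j))
  (hcard : Fintype.card X = 2 * Fintype.card I)

include hc hcx ht hcard in
/-- The sum over representatives of the pairs. -/
theorem sum_reps (f : X → ℤ) : ∑ x, f x = ∑ i, (f (t i) + f (c (t i))) := by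
  classical
  have hinj : Function.Injective (Sum.elim t fun i => c (t i)) := by
    have hci : Function.Injective c := fun x y h => by rw [← hc x, h, hc]
    rintro (i | i) (j | j) h
    · by_contra hij
      exact (ht i j fun h' => hij (by rw [h'])).1 h.symm
    · exfalso
      change t i = c (t j) at h
      by_cases hij : i = j
      · subst hij
        exact hcx _ h.symm
      · exact (ht j i (Ne.symm hij)).2 h
    · exfalso
      change c (t i) = t j at h
      by_cases hij : i = j
      · subst hij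
        exact hcx _ h
      · exact (ht i j hij).2 h.symm
    · change c (t i) = c (t j) at h
      by_contra hij
      exact (ht i j fun h' => hij (by rw [h'])).1 (hci h).symm
  have hbij : Function.Bijective (Sum.elim t fun i => c (t i)) := by
    rw [Fintype.bijective_iff_injective_and_card]
    refine ⟨hinj, ?_⟩
    rw [Fintype.card_sum, hcard]
    ring
  rw [← hbij.sum_comp f, Fintype.sum_sum_type, ← Finset.sum_add_distrib]
  rfl

include hc hcx ht hcard in
theorem mem_reps (x : X) : ∃ i, x = t i ∨ x = c (t i) := by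
  classical
  have h1 := sum_reps hc hcx ht hcard (fun y => if y = x then 1 else 0)
  by_contra hcon
  push Not at hcon
  have h2 : ∑ i, ((if t i = x then (1 : ℤ) else 0) + if c (t i) = x then 1 else 0) = 0 := by
    refine Finset.sum_eq_zero fun i _ => ?_
    rw [if_neg (fun h => (hcon i).1 h.symm), if_neg (fun h => (hcon i).2 h.symm), add_zero]
  rw [h2] at h1
  simp at h1

end reps

variable {Γ Y : Type*} [Group Γ] [MulAction Γ Y] {cb : Y → Y} [Fintype Y] {W : Y → ℤ}

theorem flip_pm {y z : Y} : Flip (Pm Γ Y) cb y z ↔ Flip Γ cb y z := by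
  constructor
  · rintro ⟨g, hg⟩
    obtain ⟨σ, hσ⟩ := of_pm g
    rw [hσ, hσ] at hg
    exact ⟨σ, hg⟩
  · rintro ⟨σ, hσ⟩
    obtain ⟨g, hg⟩ := pm_of (Y := Y) σ
    rw [← hg, ← hg] at hσ
    exact ⟨g, hσ⟩

theorem link_pm {y z : Y} : Link (Pm Γ Y) cb y z ↔ Link Γ cb y z := by
  unfold Link
  have h : (fun y z => ¬ Flip (Pm Γ Y) cb y z) = fun y z => ¬ Flip Γ cb y z := by
    funext y z
    rw [flip_pm]
  rw [h]

open Classical in
/-- The restriction of `d` to the class of `y₀`. -/
noncomputable def restrC (Γ : Type*) {Y : Type*} [Group Γ] [MulAction Γ Y] (cb : Y → Y) (y₀ : Y)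
    (d : Y → ℤ) : Y → ℤ := fun y => if Link Γ cb y₀ y then d y else 0

/-- The sum of the restrictions to the classes. -/
theorem mem_of_restrC {S : AddSubgroup (Y → ℤ)} {d : Y → ℤ}
    (h : ∀ y₀, restrC Γ cb y₀ d ∈ S) : d ∈ S := by
  classical
  let s : Setoid Y := ⟨Link Γ cb, ⟨link_refl, link_symm, link_trans⟩⟩
  let _ : Fintype (Quotient s) := Fintype.ofFinite _
  have h1 : d = ∑ q : Quotient s, restrC Γ cb q.out d := by
    funext y
    rw [Finset.sum_apply]
    have h2 : ∀ q : Quotient s, restrC Γ cb q.out d y = if q = Quotient.mk s y then d y else 0 := by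
      intro q
      unfold restrC
      congr 1
      rw [eq_iff_iff]
      constructor
      · intro h3
        rw [← Quotient.out_eq q]
        exact Quotient.sound (s := s) (show q.out ≈ y from h3)
      · rintro rfl
        exact Quotient.exact (s := s) (Quotient.out_eq (Quotient.mk s y))
    rw [Finset.sum_congr rfl fun q _ => h2 q, Finset.sum_ite_eq' Finset.univ,
      if_pos (Finset.mem_univ _)]
  rw [h1]
  exact AddSubgroup.sum_mem _ fun q _ => h _

variable (hcb : ∀ y, cb (cb y) = y) (hne : ∀ y, cb y ≠ y)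
  (hG : ∀ (g : Γ) (y : Y), g • cb y = cb (g • y)) (hW : ∀ y, W (cb y) = -W y)

open Classical in
include hG hW in
/-- The restriction of a relation to a class is a relation. -/
theorem rel_restrC {d : Y → ℤ} (hd : Rel Γ W d) (y₀ : Y) : Rel Γ W (restrC Γ cb y₀ d) := by
  intro σ
  have _ : Fintype (Pm Γ Y) := Fintype.ofFinite _
  obtain ⟨g, hg⟩ := pm_of (Y := Y) σ
  have h1 := core_split (G := Pm Γ Y) (cb := cb) (fun g y => by
      obtain ⟨τ, hτ⟩ := of_pm g
      rw [hτ, hτ, hG]) hW (c := d) (fun g => by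
      obtain ⟨τ, hτ⟩ := of_pm g
      rw [← hd τ]
      exact Finset.sum_congr rfl fun y _ => by rw [hτ]) y₀ g
  rw [Finset.sum_filter] at h1
  rw [← h1]
  refine Finset.sum_congr rfl fun y _ => ?_
  unfold restrC
  rw [hg, link_pm]
  split_ifs
  · rfl
  · rw [zero_mul]

/-- The kernel. -/
noncomputable def ker (Γ : Type*) {Y : Type*} [Group Γ] [MulAction Γ Y] [Fintype Y] (W : Y → ℤ)
    (x y : Y) : ℤ := ∑ᶠ g : Pm Γ Y, W (g • x) * W (g • y)

theorem ker_eq [Fintype (Pm Γ Y)] (x y : Y) :
    ker Γ W x y = ∑ g : Pm Γ Y, W (g • x) * W (g • y) := finsum_eq_sum_of_fintype _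

theorem ker_symm (x y : Y) : ker Γ W x y = ker Γ W y x :=
  finsum_congr fun g => mul_comm _ _

include hG hW in
theorem ker_odd (x y : Y) : ker Γ W (cb x) y = - ker Γ W x y := by
  have _ : Fintype (Pm Γ Y) := Fintype.ofFinite _
  rw [ker_eq, ker_eq, ← Finset.sum_neg_distrib]
  refine Finset.sum_congr rfl fun g _ => ?_
  obtain ⟨τ, hτ⟩ := of_pm g
  rw [hτ (cb x), hτ x, hG, hW]
  ring

include hG hW in
theorem ker_odd' (x y : Y) : ker Γ W x (cb y) = - ker Γ W x y := by
  rw [ker_symm, ker_odd hG hW, ker_symm]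

theorem ker_inv (σ : Γ) (x y : Y) : ker Γ W (σ • x) (σ • y) = ker Γ W x y := by
  have _ : Fintype (Pm Γ Y) := Fintype.ofFinite _
  obtain ⟨h, hh⟩ := pm_of (Y := Y) σ
  rw [ker_eq, ker_eq, ← hh, ← hh]
  simp only [← mul_smul]
  exact Fintype.sum_equiv (Equiv.mulRight h) _ _ fun g => rfl

theorem ker_rel {d : Y → ℤ} (hd : Rel Γ W d) (y : Y) : ∑ x, d x * ker Γ W x y = 0 := by
  have _ : Fintype (Pm Γ Y) := Fintype.ofFinite _
  simp only [ker_eq, Finset.mul_sum]
  rw [Finset.sum_comm]
  refine Finset.sum_eq_zero fun g _ => ?_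
  obtain ⟨τ, hτ⟩ := of_pm g
  have h1 : ∑ x, d x * (W (g • x) * W (g • y)) = (∑ x, d x * W (τ • x)) * W (g • y) := by
    rw [Finset.sum_mul]
    exact Finset.sum_congr rfl fun x _ => by rw [hτ x]; ring
  rw [h1, hd τ, zero_mul]

/-- The Cauchy-Schwarz inequality. -/
theorem ker_le {x y : Y} (h : ker Γ W x x = ker Γ W y y) : ker Γ W x y ≤ ker Γ W x x := by
  have _ : Fintype (Pm Γ Y) := Fintype.ofFinite _
  have h1 : 0 ≤ ∑ g : Pm Γ Y, (W (g • x) - W (g • y)) ^ 2 := Finset.sum_nonneg fun g _ => sq_nonneg _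
  have h2 : ∑ g : Pm Γ Y, (W (g • x) - W (g • y)) ^ 2 =
      ker Γ W x x + ker Γ W y y - 2 * ker Γ W x y := by
    rw [ker_eq, ker_eq, ker_eq, Finset.mul_sum, ← Finset.sum_add_distrib, ← Finset.sum_sub_distrib]
    exact Finset.sum_congr rfl fun g _ => by ring
  rw [← h] at h2
  linarith

theorem ker_eq_imp {x y : Y} (h : ker Γ W x x = ker Γ W y y) (h' : ker Γ W x y = ker Γ W x x)
    (σ : Γ) : W (σ • x) = W (σ • y) := by
  have _ : Fintype (Pm Γ Y) := Fintype.ofFinite _
  have h2 : ∑ g : Pm Γ Y, (W (g • x) - W (g • y)) ^ 2 =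
      ker Γ W x x + ker Γ W y y - 2 * ker Γ W x y := by
    rw [ker_eq, ker_eq, ker_eq, Finset.mul_sum, ← Finset.sum_add_distrib, ← Finset.sum_sub_distrib]
    exact Finset.sum_congr rfl fun g _ => by ring
  rw [← h, h'] at h2
  have h3 : ∑ g : Pm Γ Y, (W (g • x) - W (g • y)) ^ 2 = 0 := by rw [h2]; ring
  obtain ⟨g, hg⟩ := pm_of (Y := Y) σ
  have h4 := (Finset.sum_eq_zero_iff_of_nonneg fun g _ => sq_nonneg _).1 h3 g (Finset.mem_univ _)
  have h5 : W (g • x) - W (g • y) = 0 := by simpa using h4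
  rw [hg, hg] at h5
  omega

theorem ker_zero_imp {x : Y} (h : ker Γ W x x = 0) (σ : Γ) : W (σ • x) = 0 := by
  have _ : Fintype (Pm Γ Y) := Fintype.ofFinite _
  rw [ker_eq] at h
  obtain ⟨g, hg⟩ := pm_of (Y := Y) σ
  have h4 := (Finset.sum_eq_zero_iff_of_nonneg fun g _ => mul_self_nonneg _).1 h g
    (Finset.mem_univ _)
  rw [hg] at h4
  simpa using h4

theorem ker_nonneg (x : Y) : 0 ≤ ker Γ W x x := by
  have _ : Fintype (Pm Γ Y) := Fintype.ofFinite _
  rw [ker_eq]
  exact Finset.sum_nonneg fun g _ => mul_self_nonneg _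

/-- The case of the zero function. -/
theorem zero_mem {y₀ : Y} (h : ∀ (σ : Γ) (z : Y), Link Γ cb y₀ z → W (σ • z) = 0) (d : Y → ℤ) :
    restrC Γ cb y₀ d ∈ AddSubgroup.closure (Elm Γ W) := by
  classical
  have h1 : restrC Γ cb y₀ d = ∑ y, restrC Γ cb y₀ d y • dl y := by
    funext x
    rw [Finset.sum_apply, Finset.sum_eq_single x]
    · simp [dl]
    · intro y _ hne
      simp [dl, Ne.symm hne]
    · intro h
      exact absurd (Finset.mem_univ _) h
  rw [h1]
  refine AddSubgroup.sum_mem _ fun y _ => ?_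
  by_cases hy : Link Γ cb y₀ y
  · exact AddSubgroup.zsmul_mem _ (AddSubgroup.subset_closure (dl_mem fun σ => h σ y hy)) _
  · have : restrC Γ cb y₀ d y = 0 := if_neg hy
    rw [this, zero_smul]
    exact AddSubgroup.zero_mem _

include hcb hne hG hW in
/-- The case of a sign function. -/
theorem sign_mem {y₀ : Y} {v : Y → ℤ} (hv : ∀ z, Link Γ cb y₀ z → v z = 1 ∨ v z = -1)
    (h : ∀ (σ : Γ) (z : Y), Link Γ cb y₀ z → W (σ • z) = v z * W (σ • y₀))
    (hreg : ∃ σ : Γ, W (σ • y₀) ≠ 0) {d : Y → ℤ} (hd : Rel Γ W d) :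
    restrC Γ cb y₀ d ∈ AddSubgroup.closure (Elm Γ W) := by
  classical
  obtain ⟨σ₀, hσ₀⟩ := hreg
  have hv0 : v y₀ = 1 := by
    have h1 := h σ₀ y₀ (link_refl _)
    rcases hv y₀ (link_refl _) with h2 | h2
    · exact h2
    · rw [h2] at h1
      omega
  have hcl := link_cb hcb hne hG y₀
  have hv1 : v (cb y₀) = -1 := by
    have h1 := h σ₀ (cb y₀) hcl
    rw [hG, hW] at h1
    rcases hv _ hcl with h2 | h2
    · rw [h2] at h1
      omega
    · exact h2
  set D := restrC Γ cb y₀ d with hD
  have hD0 : ∀ z, ¬ Link Γ cb y₀ z → D z = 0 := fun z hz => if_neg hz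
  have hsum : ∑ z, D z * v z = 0 := by
    have h1 := rel_restrC hG hW hd y₀ σ₀
    have h2 : ∑ z, D z * W (σ₀ • z) = (∑ z, D z * v z) * W (σ₀ • y₀) := by
      rw [Finset.sum_mul]
      refine Finset.sum_congr rfl fun z _ => ?_
      by_cases hz : Link Γ cb y₀ z
      · rw [h σ₀ z hz]; ring
      · rw [hD0 z hz]; ring
    rw [← hD, h2] at h1
    exact (mul_eq_zero.1 h1).resolve_right hσ₀
  have hpair : ∀ x x', Link Γ cb y₀ x → Link Γ cb y₀ x' → v x + v x' = 0 →
      dl x + dl x' ∈ Elm Γ W := by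
    intro x x' hx hx' h1
    refine dl_add_mem fun σ => ?_
    rw [h σ x hx, h σ x' hx', ← add_mul, h1, zero_mul]
  have hab : (∑ z, if v z = 1 then D z else 0) = ∑ z, if v z = 1 then 0 else D z := by
    have h1 : ∑ z, D z * v z =
        (∑ z, if v z = 1 then D z else 0) - ∑ z, if v z = 1 then 0 else D z := by
      rw [← Finset.sum_sub_distrib]
      refine Finset.sum_congr rfl fun z _ => ?_
      by_cases hz : Link Γ cb y₀ z
      · rcases hv z hz with h | h
        · simp [h]
        · simp [h]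
      · rw [hD0 z hz]
        simp
    rw [hsum] at h1
    omega
  have hdec : D = ∑ z, (D z) • (dl z + if v z = 1 then dl (cb y₀) else dl y₀) -
      (∑ z, if v z = 1 then D z else 0) • (dl y₀ + dl (cb y₀)) := by
    funext x
    rw [Pi.sub_apply, Finset.sum_apply, Pi.smul_apply, Pi.add_apply]
    have h2 : ∀ z, ((D z) • (dl z + if v z = 1 then dl (cb y₀) else dl y₀)) x =
        (if z = x then D z else 0) +
          ((if v z = 1 then D z else 0) * dl (cb y₀) x +
            (if v z = 1 then 0 else D z) * dl y₀ x) := by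
      intro z
      have h4 : x = z ↔ z = x := eq_comm
      rw [Pi.smul_apply, Pi.add_apply, smul_eq_mul, mul_add]
      have e1 : D z * dl z x = if z = x then D z else 0 := by
        unfold dl
        rw [h4]
        split_ifs <;> ring
      rw [e1]
      split_ifs <;> ring
    rw [Finset.sum_congr rfl fun z _ => h2 z, Finset.sum_add_distrib, Finset.sum_add_distrib,
      Finset.sum_ite_eq' Finset.univ x, if_pos (Finset.mem_univ _), ← Finset.sum_mul,
      ← Finset.sum_mul, ← hab, smul_eq_mul]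
    ring
  rw [hdec]
  refine AddSubgroup.sub_mem _ (AddSubgroup.sum_mem _ fun z _ => ?_)
    (AddSubgroup.zsmul_mem _ (AddSubgroup.subset_closure
      (hpair _ _ (link_refl _) hcl (by rw [hv0, hv1]; norm_num))) _)
  by_cases hz : Link Γ cb y₀ z
  · refine AddSubgroup.zsmul_mem _ (AddSubgroup.subset_closure ?_) _
    split_ifs with h1
    · exact hpair z _ hz hcl (by rw [h1, hv1]; norm_num)
    · exact hpair z _ hz (link_refl _) (by rw [(hv z hz).resolve_left h1, hv0]; norm_num)
  · rw [hD0 z hz, zero_smul]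
    exact AddSubgroup.zero_mem _

include hcb hne hG hW in
/-- The symmetric case. -/
theorem symC_mem {y₀ : Y} {d : Y → ℤ} (h : ∀ z, Link Γ cb y₀ z → d (cb z) = d z) :
    restrC Γ cb y₀ d ∈ AddSubgroup.closure (Elm Γ W) := by
  classical
  refine sym_mem hcb hne hG hW fun y => ?_
  unfold restrC
  have h1 : Link Γ cb y₀ (cb y) ↔ Link Γ cb y₀ y :=
    ⟨fun h => link_trans h (link_symm (link_cb hcb hne hG y)),
      fun h => link_trans h (link_cb hcb hne hG y)⟩
  rw [h1]
  split_ifs with hy
  · exact h y hy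
  · rfl

end Pool.Agent.V7H82.LR
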