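import Mathlib
import Pool.Agent.V7H82.LR.Cls

/-!
# Short relations in good classes
-/

set_option linter.unusedSectionVars false
set_option linter.unusedVariables false

namespace Pool.Agent.V7H82.LR

open Pool.Agent.TH127.SC Pool.Agent.V7H82.TT Pool.Agent.V7H82.HT MulAction
  Pool.Agent.V7H82.TG

variable {Γ Y : Type*} [Group Γ] [MulAction Γ Y] {cb : Y → Y} [Fintype Y] {W : Y → ℤ}
  (hcb : ∀ y, cb (cb y) = y) (hne : ∀ y, cb y ≠ y)
  (hG : ∀ (g : Γ) (y : Y), g • cb y = cb (g • y)) (hW : ∀ y, W (cb y) = -W y)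

/-- The class of `y₀` as a type. -/
abbrev Cl (Γ : Type*) {Y : Type*} [Group Γ] [MulAction Γ Y] (cb : Y → Y) (y₀ : Y) : Type _ :=
  {z : Y // Link Γ cb y₀ z}

section cls

variable {y₀ : Y}

/-- The involution of the class. -/
def cc (x : Cl Γ cb y₀) : Cl Γ cb y₀ := ⟨cb x.1, link_trans x.2 (link_cb hcb hne hG x.1)⟩

include hW in
/-- The homogeneity of the kernel. -/
theorem ker_hom (hpair : ClassPair Γ cb y₀) [Fintype (Cl Γ cb y₀)] {x y x' y' : Cl Γ cb y₀}
    (h : Kern.NP (cc hcb hne hG) x y) (h' : Kern.NP (cc hcb hne hG) x' y') :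
    ∃ ε : ℤ, (ε = 1 ∨ ε = -1) ∧ ker Γ W x.1 y.1 = ε * ker Γ W x'.1 y'.1 ∧
      ∑ z : Cl Γ cb y₀, ker Γ W x.1 z.1 * ker Γ W z.1 y.1 =
        ε * ∑ z : Cl Γ cb y₀, ker Γ W x'.1 z.1 * ker Γ W z.1 y'.1 := by
  obtain ⟨σ, hσ⟩ := hpair x.1 y.1 x'.1 y'.1 x.2 y.2 x'.2 y'.2
    (fun h1 => h.1 (Subtype.ext h1)) (fun h1 => h.2 (Subtype.ext h1))
    (fun h1 => h'.1 (Subtype.ext h1)) (fun h1 => h'.2 (Subtype.ext h1))
  have hor : ∀ {u v : Y}, Link Γ cb y₀ v → (u = v ∨ u = cb v) → Link Γ cb y₀ u := by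
    rintro u v hv (rfl | rfl)
    · exact hv
    · exact link_trans hv (link_cb hcb hne hG v)
  have hstab : ∀ z : Cl Γ cb y₀, Link Γ cb y₀ (σ • z.1) := by
    intro z
    have h1 : Link Γ cb y₀ (σ • x.1) := by
      rcases hσ with ⟨h2, -⟩ | ⟨h2, -⟩
      · exact hor x'.2 h2
      · exact hor y'.2 h2
    exact link_trans h1 (link_smul hG σ (link_trans (link_symm x.2) z.2))
  have hval : ∀ {u v : Cl Γ cb y₀}, (σ • u.1 = v.1 ∨ σ • u.1 = cb v.1) →
      ((⟨σ • u.1, hstab u⟩ : Cl Γ cb y₀) = v ∨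
        (⟨σ • u.1, hstab u⟩ : Cl Γ cb y₀) = cc hcb hne hG v) := by
    rintro u v (h1 | h1)
    · exact Or.inl (Subtype.ext h1)
    · exact Or.inr (Subtype.ext h1)
  refine Kern.hom_of_perm (c := cc hcb hne hG) (B := fun a b : Cl Γ cb y₀ => ker Γ W a.1 b.1)
    (fun a b => ker_symm _ _) (fun a b => ker_odd hG hW _ _)
    (fun z => ⟨σ • z.1, hstab z⟩) (fun z w hzw => Subtype.ext ?_) (fun z w => ?_) ?_
  · exact MulAction.injective σ (congrArg Subtype.val hzw)
  · exact ker_inv σ z.1 w.1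
  · rcases hσ with ⟨h1, h2⟩ | ⟨h1, h2⟩
    · exact Or.inl ⟨hval h1, hval h2⟩
    · exact Or.inr ⟨hval h1, hval h2⟩

include hcb hne hG hW in
/-- **Short relations in doubly homogeneous classes.** -/
theorem short_hom (htr : ∀ z, Link Γ cb y₀ z → ∃ g : Γ, g • y₀ = z)
    (hpair : ClassPair Γ cb y₀) {b r : ℕ} (hb : Nat.card (Cl Γ cb y₀) = 2 * b)
    (hframe : ¬ HasFrame r b) {d : Y → ℕ} (hd : Rel Γ W (fun y => (d y : ℤ)))
    (hr : ∑ y, d y ≤ 2 * r) :
    restrC Γ cb y₀ (fun y => (d y : ℤ)) ∈ AddSubgroup.closure (Elm Γ W) := by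
  classical
  have hdiag : ∀ z, Link Γ cb y₀ z → ker Γ W z z = ker Γ W y₀ y₀ := by
    intro z hz
    obtain ⟨g, rfl⟩ := htr z hz
    exact ker_inv g y₀ y₀
  set β := ker Γ W y₀ y₀ with hβ
  rcases (ker_nonneg (Γ := Γ) (W := W) y₀).eq_or_lt with h0 | hpos
  · -- the zero function
    refine zero_mem (fun σ z hz => ?_) _
    exact ker_zero_imp ((hdiag z hz).trans (hβ.trans h0.symm)) σ
  rw [← hβ] at hpos
  have hle : ∀ x y, Link Γ cb y₀ x → Link Γ cb y₀ y → |ker Γ W x y| ≤ β := by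
    intro x y hx hy
    rw [abs_le]
    constructor
    · have h1 := ker_le (Γ := Γ) (W := W) (x := x) (y := cb y)
        ((hdiag x hx).trans (hdiag (cb y) (link_trans hy (link_cb hcb hne hG y))).symm)
      rw [ker_odd' hG hW, hdiag x hx] at h1
      omega
    · have h1 := ker_le (Γ := Γ) (W := W) (x := x) (y := y)
        ((hdiag x hx).trans (hdiag y hy).symm)
      rwa [hdiag x hx] at h1
  have _ : Fintype (Cl Γ cb y₀) := Fintype.ofFinite _
  obtain ⟨I, _, _, t, ht, hcard⟩ := Kern.exists_reps (c := cc hcb hne hG (y₀ := y₀))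
    (fun x => Subtype.ext (hcb x.1)) (fun x h => hne x.1 (congrArg Subtype.val h))
  have hccc : ∀ x : Cl Γ cb y₀, cc hcb hne hG (cc hcb hne hG x) = x :=
    fun x => Subtype.ext (hcb x.1)
  have hccn : ∀ x : Cl Γ cb y₀, cc hcb hne hG x ≠ x :=
    fun x h => hne x.1 (congrArg Subtype.val h)
  have hbI : Fintype.card I = b := by
    rw [Nat.card_eq_fintype_card, hcard] at hb
    omega
  -- the coefficients
  let u : I → ℤ := fun i => (d (t i).1 : ℤ) - d (cb (t i).1)
  have hu : ∀ y : Y, Link Γ cb y₀ y → ∑ i, u i * ker Γ W (t i).1 y = 0 := by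
    intro y hy
    have h1 := ker_rel (rel_restrC hG hW hd y₀) y
    have h2 : ∑ x, restrC Γ cb y₀ (fun y => (d y : ℤ)) x * ker Γ W x y =
        ∑ x : Cl Γ cb y₀, (d x.1 : ℤ) * ker Γ W x.1 y := by
      rw [← Finset.sum_subtype (Finset.univ.filter fun x => Link Γ cb y₀ x) (by simp)
        (fun x => (d x : ℤ) * ker Γ W x y), Finset.sum_filter]
      refine Finset.sum_congr rfl fun x _ => ?_
      unfold restrC
      split_ifs
      · rfl
      · rw [zero_mul]
    rw [h2, sum_reps hccc hccn ht hcard] at h1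
    rw [← h1]
    refine Finset.sum_congr rfl fun i _ => ?_
    change ((d (t i).1 : ℤ) - d (cb (t i).1)) * ker Γ W (t i).1 y =
      (d (t i).1 : ℤ) * ker Γ W (t i).1 y + (d (cb (t i).1) : ℤ) * ker Γ W (cb (t i).1) y
    rw [ker_odd hG hW]
    ring
  have hur : ∑ i, |u i| ≤ 2 * r := by
    have h1 : ∑ i, |u i| ≤ ∑ i, ((d (t i).1 : ℤ) + d (cb (t i).1)) := by
      refine Finset.sum_le_sum fun i _ => ?_
      change |(d (t i).1 : ℤ) - d (cb (t i).1)| ≤ _
      rw [abs_le]
      constructor <;> omega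
    have h2 := sum_reps hccc hccn ht hcard (fun x : Cl Γ cb y₀ => (d x.1 : ℤ))
    have h3 : ∑ x : Cl Γ cb y₀, (d x.1 : ℤ) ≤ ∑ y, (d y : ℤ) := by
      rw [← Finset.sum_subtype (Finset.univ.filter fun x => Link Γ cb y₀ x) (by simp)
        (fun x => (d x : ℤ))]
      exact Finset.sum_le_sum_of_subset_of_nonneg (Finset.subset_univ _)
        fun _ _ _ => Int.natCast_nonneg _
    have h4 : ∑ y, (d y : ℤ) ≤ 2 * r := by exact_mod_cast hr
    exact h1.trans ((le_of_eq h2.symm).trans (h3.trans h4))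
  -- the symmetric case
  have hsymm : (∀ i, u i = 0) → restrC Γ cb y₀ (fun y => (d y : ℤ)) ∈
      AddSubgroup.closure (Elm Γ W) := by
    intro h
    refine symC_mem hcb hne hG hW fun z hz => ?_
    obtain ⟨i, hi | hi⟩ := mem_reps hccc hccn ht hcard ⟨z, hz⟩
    · have h1 : (t i).1 = z := (congrArg Subtype.val hi).symm
      have h2 : (d (t i).1 : ℤ) - d (cb (t i).1) = 0 := h i
      rw [h1] at h2
      omega
    · have h1 : z = cb (t i).1 := congrArg Subtype.val hi
      have h2 : (d (t i).1 : ℤ) - d (cb (t i).1) = 0 := h i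
      rw [h1, hcb]
      omega
  by_cases hNP : ∃ i j : I, i ≠ j
  swap
  · -- one pair
    push Not at hNP
    refine hsymm fun i => ?_
    have h1 := hu (t i).1 (t i).2
    rw [Finset.sum_eq_single i (fun k _ hk => absurd (hNP k i) hk)
      (fun h => absurd (Finset.mem_univ _) h), hdiag _ (t i).2] at h1
    exact (mul_eq_zero.1 h1).resolve_right hpos.ne'
  obtain ⟨i₁, j₁, hij₁⟩ := hNP
  set α := |ker Γ W (t i₁).1 (t j₁).1| with hα
  have hα0 : 0 ≤ α := abs_nonneg _
  have habs : ∀ x y : Cl Γ cb y₀, Kern.NP (cc hcb hne hG) x y → |ker Γ W x.1 y.1| = α := by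
    intro x y h
    obtain ⟨ε, hε, h1, -⟩ := ker_hom hcb hne hG hW hpair h (ht i₁ j₁ hij₁)
    rw [h1, abs_mul]
    rcases hε with rfl | rfl <;> simp [hα]
  have hαβ : α ≤ β := hle _ _ (t i₁).2 (t j₁).2
  rcases hαβ.eq_or_lt with heq | hlt
  · -- a sign function
    have hall : ∀ z, Link Γ cb y₀ z → ker Γ W y₀ z = β ∨ ker Γ W y₀ z = -β := by
      intro z hz
      by_cases h1 : z = y₀
      · left
        rw [h1]
      by_cases h2 : z = cb y₀
      · right
        rw [h2, ker_odd' hG hW]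
      · have h3 := habs ⟨y₀, link_refl _⟩ ⟨z, hz⟩ ⟨fun h => h1 (congrArg Subtype.val h),
          fun h => h2 (congrArg Subtype.val h)⟩
        rw [heq] at h3
        exact (abs_eq hpos.le).1 h3
    refine sign_mem hcb hne hG hW (v := fun z => if ker Γ W y₀ z = β then 1 else -1)
      (fun z hz => ?_) (fun σ z hz => ?_) ?_ hd
    · split_ifs <;> simp
    · by_cases h1 : ker Γ W y₀ z = β
      · rw [if_pos h1, one_mul]
        exact (ker_eq_imp (hdiag z hz).symm h1 σ).symm
      · rw [if_neg h1]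
        have h2 := (hall z hz).resolve_left h1
        have h3 : ker Γ W y₀ (cb z) = β := by
          rw [ker_odd' hG hW, h2, neg_neg]
        have hz' : Link Γ cb y₀ (cb z) := link_trans hz (link_cb hcb hne hG z)
        have h4 := ker_eq_imp (hdiag _ hz').symm h3 σ
        rw [hG, hW] at h4
        omega
    · by_contra hcon
      push Not at hcon
      have h1 : β = 0 := by
        rw [hβ]
        have _ : Fintype (Pm Γ Y) := Fintype.ofFinite _
        rw [ker_eq]
        refine Finset.sum_eq_zero fun g _ => ?_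
        obtain ⟨τ, hτ⟩ := of_pm g
        rw [hτ, hcon, zero_mul]
      omega
  · refine hsymm ?_
    by_contra hcon
    push Not at hcon
    obtain ⟨i₀, hi₀⟩ := hcon
    have hα1 : 0 < α := by
      rcases hα0.eq_or_lt with h | h
      · exfalso
        have h1 := hu (t i₀).1 (t i₀).2
        rw [Finset.sum_eq_single i₀ (fun k _ hk => by
            have h2 := habs (t k) (t i₀) (ht k i₀ hk)
            rw [← h, abs_eq_zero] at h2
            rw [h2, mul_zero])
          (fun h => absurd (Finset.mem_univ _) h), hdiag _ (t i₀).2] at h1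
        rcases mul_eq_zero.1 h1 with h2 | h2
        · exact hi₀ h2
        · omega
      · exact h
    apply hframe
    have heven : ∀ x y : Cl Γ cb y₀, ∑ z : Cl Γ cb y₀, ker Γ W x.1 z.1 * ker Γ W z.1 y.1 =
        2 * ∑ k, ker Γ W x.1 (t k).1 * ker Γ W (t k).1 y.1 := by
      intro x y
      rw [sum_reps hccc hccn ht hcard, Finset.mul_sum]
      refine Finset.sum_congr rfl fun k _ => ?_
      change ker Γ W x.1 (t k).1 * ker Γ W (t k).1 y.1 +
        ker Γ W x.1 (cb (t k).1) * ker Γ W (cb (t k).1) y.1 = _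
      rw [ker_odd' hG hW, ker_odd hG hW]
      ring
    have h1 := frame (M := fun i j => ker Γ W (t i).1 (t j).1) (fun i j => ker_symm _ _) hα1 hlt
      (fun i => hdiag _ (t i).2) (fun i j hij => habs _ _ (ht i j hij))
      (fun i j i' j' hij hij' => by
        obtain ⟨ε, hε, e1, e2⟩ := ker_hom hcb hne hG hW hpair (ht i j hij) (ht i' j' hij')
        rw [heven, heven] at e2
        refine ⟨ε, hε, e1, ?_⟩
        have h2 : (2 : ℤ) ≠ 0 := by norm_num
        apply mul_left_cancel₀ h2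
        rw [e2]
        ring)
      hi₀ (fun j => hu _ (t j).2) hur
    rw [hbI] at h1
    exact h1

include hcb hne hG hW in
/-- **Short relations in good classes with many pairs.** -/
theorem short_good (hgood : GoodClass (Pm Γ Y) cb y₀) {r : ℕ}
    (hb : 4 * r < Nat.card (Cl Γ cb y₀)) {d : Y → ℕ} (hd : Rel Γ W (fun y => (d y : ℤ)))
    (hr : ∑ y, d y ≤ 2 * r) :
    restrC Γ cb y₀ (fun y => (d y : ℤ)) ∈ AddSubgroup.closure (Elm Γ W) := by
  classical
  have hG' : ∀ (g : Pm Γ Y) (y : Y), g • cb y = cb (g • y) := by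
    intro g y
    obtain ⟨τ, hτ⟩ := of_pm g
    rw [hτ, hτ, hG]
  have hodd : OddRel (Pm Γ Y) cb W (fun y => (d y : ℤ) - d (cb y)) :=
    oddRel_pm.2 (oddRel_of_rel hcb hG hW hd)
  have hsymm : (∀ z, Link Γ cb y₀ z → (d z : ℤ) - d (cb z) = 0) →
      restrC Γ cb y₀ (fun y => (d y : ℤ)) ∈ AddSubgroup.closure (Elm Γ W) := by
    intro h
    refine symC_mem hcb hne hG hW fun z hz => ?_
    have := h z hz
    omega
  rcases alt_class hcb hne hG' hgood hW with h | ⟨v, hv, h⟩ | h | ⟨v, hv, h⟩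
  · refine zero_mem (fun σ z hz => ?_) _
    obtain ⟨g, hg⟩ := pm_of (Y := Y) σ
    rw [← hg]
    exact h g z (link_pm.2 hz)
  · by_cases hreg : ∃ σ : Γ, W (σ • y₀) ≠ 0
    · have hv0 := hv.1 y₀ (link_refl _)
      refine sign_mem hcb hne hG hW (v := fun z => v z * v y₀) (fun z hz => ?_) (fun σ z hz => ?_)
        hreg hd
      · have h1 := hv.1 z (link_pm.2 hz)
        rcases h1 with h1 | h1 <;> rcases hv0 with h2 | h2 <;> rw [h1, h2] <;> norm_num
      · obtain ⟨g, hg⟩ := pm_of (Y := Y) σ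
        rw [← hg, ← hg]
        have h1 := h g z y₀ (link_pm.2 hz) (link_refl _)
        have h2 := hv.1 z (link_pm.2 hz)
        have h3 : v z * v z = 1 := by rcases h2 with h2 | h2 <;> rw [h2] <;> norm_num
        calc W (g • z) = W (g • z) * v z * v z := by rw [mul_assoc, h3, mul_one]
          _ = _ := by rw [h1]; ring
    · push Not at hreg
      refine zero_mem (fun σ z hz => ?_) _
      obtain ⟨g, hg⟩ := pm_of (Y := Y) σ
      have h1 := h g z y₀ (link_pm.2 hz) (link_refl _)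
      rw [hg, hg, hreg, zero_mul] at h1
      rcases hv.1 z (link_pm.2 hz) with h2 | h2 <;> rw [h2] at h1 <;> omega
  · exact hsymm fun z hz => h _ hodd z (link_pm.2 hz)
  · obtain ⟨l, hl⟩ := h _ hodd
    refine hsymm fun z hz => ?_
    rw [hl z (link_pm.2 hz)]
    by_contra hcon
    have hl0 : 1 ≤ |l| := by
      have : l ≠ 0 := fun h => hcon (by rw [h, zero_mul])
      have := abs_pos.2 this
      omega
    have h1 : ∑ z : Cl Γ cb y₀, |(d z.1 : ℤ) - d (cb z.1)| = Nat.card (Cl Γ cb y₀) * |l| := by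
      rw [Finset.sum_congr rfl (g := fun _ => |l|), Finset.sum_const, Finset.card_univ,
        nsmul_eq_mul, Nat.card_eq_fintype_card]
      · intro z _
        have h2 := hl z.1 (link_pm.2 z.2)
        rw [h2, abs_mul]
        rcases hv.1 z.1 (link_pm.2 z.2) with h | h <;> rw [h] <;> simp
    have h2 : ∑ z : Cl Γ cb y₀, |(d z.1 : ℤ) - d (cb z.1)| ≤ 2 * ∑ y, (d y : ℤ) := by
      have h3 : ∑ z : Cl Γ cb y₀, |(d z.1 : ℤ) - d (cb z.1)| ≤
          ∑ z : Cl Γ cb y₀, ((d z.1 : ℤ) + d (cb z.1)) := by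
        refine Finset.sum_le_sum fun z _ => ?_
        rw [abs_le]
        constructor <;> omega
      refine h3.trans ?_
      rw [← Finset.sum_subtype (Finset.univ.filter fun x => Link Γ cb y₀ x) (by simp)
        (fun x => (d x : ℤ) + d (cb x))]
      refine (Finset.sum_le_sum_of_subset_of_nonneg (Finset.subset_univ _)
        fun _ _ _ => by positivity).trans ?_
      rw [Finset.sum_add_distrib, two_mul]
      refine le_of_eq (congrArg _ ?_)
      exact Fintype.sum_equiv (Function.Involutive.toPerm cb hcb) _ _ fun y => rfl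
    have h4 : ∑ y, (d y : ℤ) ≤ 2 * r := by exact_mod_cast hr
    have h5 : ((4 * r : ℕ) : ℤ) < Nat.card (Cl Γ cb y₀) := by exact_mod_cast hb
    have h6 : (Nat.card (Cl Γ cb y₀) : ℤ) * 1 ≤ Nat.card (Cl Γ cb y₀) * |l| :=
      mul_le_mul_of_nonneg_left hl0 (Int.natCast_nonneg _)
    push_cast at h5
    rw [h1] at h2
    linarith

end cls

end Pool.Agent.V7H82.LR
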