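import Pool.Agent.TH117.BL.Main
import Pool.Agent.TH117.PO.Full
import Pool.Agent.TH117.PO.Final
import Pool.Agent.V7H82.LR.Stm

/-!
# Tate classes of small codimension and short relations
-/

set_option autoImplicit false
set_option linter.unusedSectionVars false
set_option linter.unusedVariables false

namespace Pool.Agent.V7H82.LR

open NumberField Pool.Agent.H204R3.CM Pool.Agent.W547.KB Pool.Agent.W547.LD Module
  Pool.Agent.W495.TA Pool.Agent.W495.TB Pool.Agent.W495.TC Pool.Agent.TH117.F5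
  Pool.Agent.TH117.BL
open scoped TensorProduct

noncomputable section

variable {p : ℕ} [Fact p.Prime] {ν : PadicAlgCl p ≃+* ℂ}

/-- The relations of length at most `2 r` are products of elementary relations and of inverses of
such relations. -/
def HasElementaryUpTo (r : ℕ) (Z : RedAV p ν) : Prop :=
  ∀ e : Emb Z → ℕ, IsRel Z e → ∑ w, e w ≤ 2 * r → (fun w => (e w : ℤ)) ∈ AddSubgroup.closure
    {d : Emb Z → ℤ | ∃ n : Emb Z → ℕ, IsRel Z n ∧ IsElementary Z n ∧ ∀ w, d w = n w}

section

variable {Ω : Type} [Field Ω] [CharZero Ω]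
  {L : Type} [Field L] [NumberField L] [IsCMField L] [IsGalois ℚ L] {j : L →+* ℂ} (jO : L →+* Ω)
  {Z : RedAV p ν}

/-- The families with at most `2 r` members. -/
theorem fam_upto {r : ℕ} (hZ : Big Z.X j) (hkp : BigA (kp p) j) (hrel : HasElementaryUpTo r Z)
    (κ : Type) [Fintype κ] (w : κ → Option (Wt Z.X L))
    (hsum : ∀ g, ∑ k, ext0 (tw p ν j Z.X) (w k) g = 0) (heven : Even (Fintype.card κ))
    (hle : Fintype.card κ ≤ 2 * r) :
    AlgM p ν j jO κ fun k => ext0 (tw p ν j Z.X) (w k) := by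
  classical
  have hfin := finite_wt j hZ
  let _ : Fintype (Wt Z.X L) := Fintype.ofFinite _
  have hclosed := closedM (p := p) (ν := ν) j jO
  have hc0 := cancel_zero (p := p) (ν := ν) j jO hkp
  have hbij := toEmb_bijective (j := j) hZ
  let E : Wt Z.X L ≃ Emb Z := Equiv.ofBijective _ hbij
  -- elementary relations
  have key : ∀ d : Emb Z → ℤ, d ∈ AddSubgroup.closure
      {d : Emb Z → ℤ | ∃ n : Emb Z → ℕ, IsRel Z n ∧ IsElementary Z n ∧ ∀ w, d w = n w} →
      GenD (AlgM p ν j jO) (Set.range (ext0 (tw p ν j Z.X)))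
        (DD (tw p ν j Z.X) fun l => d (toEmb j Z l)) := by
    intro d hd
    induction hd using AddSubgroup.closure_induction with
    | mem d hd =>
      obtain ⟨n, h0, h2, h3⟩ := hd
      have h1 := (isRel_iff hZ n).1 h0
      have h4 : (fun l => d (toEmb j Z l)) = fun l : Wt Z.X L => (n (toEmb j Z l) : ℤ) :=
        funext fun l => h3 _
      rw [h4]
      rcases h2 with h2 | ⟨S, hS, h2⟩ | h2
      · rw [DD_small (tw p ν j Z.X) (fun l => n (toEmb j Z l)) (by
          rw [← Equiv.sum_comp E] at h2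
          exact h2) h1]
        exact GenD.zero
      · exact genD_of_good (cw Z) (tw p ν j Z.X) tw_cw (fam_set jO hZ hkp S hS)
          (fun l => n (toEmb j Z l)) (fun l hl => h2 _ hl) h1
      · exact genD_weil jO hZ hkp n h0 h2
    | zero =>
      have h4 : (fun l : Wt Z.X L => (0 : Emb Z → ℤ) (toEmb j Z l)) = 0 := rfl
      rw [h4, DD_zero]
      exact GenD.zero
    | add d d' _ _ h h' =>
      have h4 : (fun l : Wt Z.X L => (d + d') (toEmb j Z l)) =
        (fun l => d (toEmb j Z l)) + fun l => d' (toEmb j Z l) := rfl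
      rw [h4, DD_add]
      exact h.add h'
    | neg d _ h =>
      have h4 : (fun l : Wt Z.X L => (-d) (toEmb j Z l)) = -fun l => d (toEmb j Z l) := rfl
      rw [h4, DD_neg]
      exact h.neg
  let e : Emb Z → ℕ := fun u => Nat.card {k // w k = some (E.symm u)}
  have he : ∀ v : Wt Z.X L, (e (toEmb j Z v) : ℤ) = cnt w v := by
    intro v
    have h1 : E.symm (toEmb j Z v) = v := E.symm_apply_apply v
    change ((Nat.card {k // w k = some (E.symm (toEmb j Z v))} : ℕ) : ℤ) = _
    rw [h1]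
    rfl
  have h1 : IsRel Z e := by
    rw [isRel_iff hZ]
    intro σ
    rw [← hsum σ, sum_eq_cnt]
    exact Finset.sum_congr rfl fun v _ => by rw [he]
  have hlen : ∑ u, e u ≤ 2 * r := by
    refine le_trans ?_ hle
    have h2 : ∀ u, e u = (Finset.univ.filter fun k => w k = some (E.symm u)).card := by
      intro u
      change Nat.card {k // w k = some (E.symm u)} = _
      rw [Nat.card_eq_fintype_card, Fintype.card_subtype]
    rw [Finset.sum_congr rfl fun u _ => h2 u, ← Finset.card_biUnion]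
    · exact Finset.card_le_univ _
    · intro u _ v _ huv
      rw [Function.onFun, Finset.disjoint_left]
      intro k hk hk'
      rw [Finset.mem_filter] at hk hk'
      apply huv
      have h3 := hk.2.symm.trans hk'.2
      exact E.symm.injective (Option.some.inj h3)
  have h2 := key _ (hrel e h1 hlen)
  have h3 : (fun l : Wt Z.X L => ((e (toEmb j Z l) : ℕ) : ℤ)) = cnt w := funext he
  have h4 : GenD (AlgM p ν j jO) (Set.range (ext0 (tw p ν j Z.X)))
      (dcnt fun k => ext0 (tw p ν j Z.X) (w k)) := by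
    rw [dcnt_eq_DD, ← h3]
    exact h2
  refine @of_genD _ _ (Set.range (ext0 (tw p ν j Z.X))) hclosed ?_ κ _
    (fun k => ext0 (tw p ν j Z.X) (w k)) (fun k => ⟨w k, rfl⟩)
    (by rw [Nat.card_eq_fintype_card]; exact heven) h4
  rintro f ⟨o, rfl⟩
  rcases o with _ | l
  · exact hc0
  · exact cancel_nn j jO (Z.X.factor l.1) l.2

end

/-- Tate classes of small codimension. -/
theorem tate_upto {r : ℕ} (Z : RedAV p ν) (hrel : HasElementaryUpTo r Z)
    (Ω : Type) [Field Ω] [IsAlgClosed Ω] [CharZero Ω]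
    (Y : RedAV p ν) (hY : IsPowersTimesSupersingular Z Y) (s m : ℕ) (hs0 : 0 < s) (hm : m ≤ r)
    (f : (TM Ω Y) [⋀^Fin (2 * m)]→ₗ[Ω] Ω) (hf : IsTateClass Ω Y s m f) :
    Alg Ω Y (Fin (2 * m)) f := by
  classical
  have hne : Nonempty ((Y.X.prod Z.X).prod (single (kp p))).I := ⟨Sum.inr ()⟩
  obtain ⟨L, _, _, _, _, j, hj⟩ := exists_cm ((Y.X.prod Z.X).prod (single (kp p)))
  have hYj : Big Y.X j := fun i ψ => hj (Sum.inl (Sum.inl i)) ψ
  have hZj : Big Z.X j := fun i ψ => hj (Sum.inl (Sum.inr i)) ψ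
  have hkp : BigA (kp p) j := fun ψ => hj (Sum.inr ()) ψ
  let jO : L →+* Ω := ((IsAlgClosed.lift : L →ₐ[ℚ] Ω) : L →+* Ω)
  obtain ⟨e, h1, h2⟩ := Pool.Agent.W67.TA.basis p ν Ω L j jO Y hYj
  refine Pool.Agent.W351.TA.expand p ν Ω L jO Y e h1 h2 _ f fun I hI => ?_
  have hbal := balanced jO Pool.Agent.W366.TA.val hYj e h1 h2 s m hs0 f hf I hI
  choose o ho using fun w => weight_cases hYj hZj hY w
  have key : AlgM p ν j jO (Fin (2 * m)) fun k => tf p ν j (St j (I k)) := by
    have h3 : (fun k => tf p ν j (St j (I k))) = fun k => ext0 (tw p ν j Z.X) (o (I k)) :=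
      funext fun k => ho (I k)
    rw [h3]
    refine @fam_upto p _ ν Ω _ _ L _ _ _ _ j jO Z r hZj hkp hrel (Fin (2 * m)) _
      (fun k => o (I k)) (fun g => ?_) (by
        rw [Fintype.card_fin]
        exact even_two_mul m) (by
        rw [Fintype.card_fin]
        omega)
    rw [← hbal g]
    exact Finset.sum_congr rfl fun k _ => by rw [ho (I k)]
  exact key Y hYj I fun k => rfl

open Pool.Agent.TH117.PO in
/-- Positivity in small codimensions. -/
theorem hodge_upto {Ω : Type} [Field Ω] [IsAlgClosed Ω] [CharZero Ω]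
    {C : (Y : RedAV p ν) → (κ : Type) → ((TM Ω Y) [⋀^κ]→ₗ[Ω] Ω) → Prop}
    (hC : IsCycleSystem Ω C) (hR : IsRosatiPositive Ω C) (hT : AreTate Ω C) {r : ℕ}
    {Z : RedAV p ν} (hrel : HasElementaryUpTo r Z) {Y : RedAV p ν}
    (hY : IsPowersTimesSupersingular Z Y) : HodgeTypeUpTo r Ω C Y := by
  intro α hα s m hs hrm z hz hz0 hprim
  exact positive hC hR hα hrm hz (alg_of_tate hC hT (fun t f ht hf =>
    tate_upto Z hrel Ω Y hY t s ht hs f hf) hz) hz0 hprim

end

end Pool.Agent.V7H82.LR
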