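import Pool.Agent.V7H82.HT.Emb
import Pool.Agent.V7H82.LR.Alg
import Pool.Agent.V7H82.LR.Main

/-!
# Short relations are elementary for good classes
-/

set_option autoImplicit false
set_option linter.unusedSectionVars false
set_option linter.unusedVariables false

namespace Pool.Agent.V7H82.LR

open NumberField Module MulAction
open Pool.Agent.W495.TA Pool.Agent.TH117.BL Pool.Agent.TH117.PO Pool.Agent.N202.QR
  Pool.Agent.TH127.SC Pool.Agent.V7H82.HT

variable {p : ℕ} [Fact p.Prime] {ν : PadicAlgCl p ≃+* ℂ} {Z : RedAV p ν}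

attribute [local instance] Pool.Agent.V7H82.HT.embAct

theorem conjE_conjE (w : Emb Z) : conjE (conjE w) = w := by
  obtain ⟨i, φ⟩ := w
  unfold conjE
  simp only
  congr 1
  ext t
  rw [ComplexEmbedding.conjugate_coe_eq, ComplexEmbedding.conjugate_coe_eq, starRingEnd_self_apply]

theorem conjE_ne (w : Emb Z) : conjE w ≠ w := by
  obtain ⟨i, φ⟩ := w
  intro h
  have h1 : ComplexEmbedding.conjugate φ = φ := eq_of_heq (Sigma.mk.inj h).2
  exact conj_ne φ h1

theorem classPair_of {w : Emb Z} (h : AnyTwoPairs w) : ClassPair (ℂ ≃+* ℂ) conjE w := by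
  intro x y x' y' hx hy hx' hy' h1 h2 h3 h4
  exact h x y x' y' hx hy hx' hy' (fun h => h.elim h1 h2) (fun h => h.elim h3 h4)

theorem classPair_pm {w : Emb Z} (h : AnyTwoPairs w) :
    ClassPair (Pm (ℂ ≃+* ℂ) (Emb Z)) conjE w := by
  intro x y x' y' hx hy hx' hy' h1 h2 h3 h4
  obtain ⟨σ, hσ⟩ := classPair_of h x y x' y' (link_pm.1 hx) (link_pm.1 hy) (link_pm.1 hx')
    (link_pm.1 hy') h1 h2 h3 h4
  obtain ⟨g, hg⟩ := pm_of (Y := Emb Z) σ
  refine ⟨g, ?_⟩
  rw [hg, hg]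
  exact hσ

/-- **Short relations are elementary.** -/
theorem elementary_of_good {r : ℕ} (h : HasGoodClasses r Z) : HasElementaryUpTo r Z := by
  classical
  intro e he hr
  obtain ⟨W, hW, hWrel⟩ := exists_W Z
  have hd : Rel (ℂ ≃+* ℂ) W (fun w => (e w : ℤ)) := (hWrel e).1 he
  have hG : ∀ (g : ℂ ≃+* ℂ) (y : Emb Z), g • conjE y = conjE (g • y) := act_conj
  have hcl : AddSubgroup.closure (Elm (ℂ ≃+* ℂ) W) ≤ AddSubgroup.closure
      {d : Emb Z → ℤ | ∃ n : Emb Z → ℕ, IsRel Z n ∧ IsElementary Z n ∧ ∀ w, d w = n w} := by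
    refine AddSubgroup.closure_mono ?_
    rintro d ⟨h1, m, h2, h3⟩
    refine ⟨m, (hWrel m).2 ?_, Or.inl h3, h2⟩
    have h4 : (fun w => (m w : ℤ)) = d := funext fun w => (h2 w).symm
    rw [h4]
    exact h1
  refine mem_of_restrC (Γ := ℂ ≃+* ℂ) (cb := conjE) fun w => ?_
  rcases h w with ⟨h1, b, hb, h2⟩ | ⟨S, hS, h1⟩
  · apply hcl
    have htr : ∀ z, Link (ℂ ≃+* ℂ) conjE w z → ∃ g : ℂ ≃+* ℂ, g • w = z := fun z hz =>
      mem_orbit_emb.2 (h1 z hz)
    rcases h2 with ⟨h2, h3⟩ | ⟨h2, h3⟩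
    · exact short_hom conjE_conjE conjE_ne hG hW htr (classPair_of h2) hb h3 hd hr
    · refine short_good conjE_conjE conjE_ne hG hW (r := r) ⟨fun z hz => ?_, b, ?_, ?_⟩ ?_ hd hr
      · obtain ⟨σ, hσ⟩ := htr z (link_pm.1 hz)
        obtain ⟨g, hg⟩ := pm_of (Y := Emb Z) σ
        exact ⟨g, by rw [hg, hσ]⟩
      · simp only [link_pm]
        exact hb
      · rcases h3 with h3 | ⟨h3, h4⟩
        · exact Or.inr (Or.inl h3)
        · exact Or.inr (Or.inr ⟨classPair_pm h3, Or.inl h4⟩)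
      · have h5 : Nat.card (Cl (ℂ ≃+* ℂ) conjE w) = 2 * b := hb
        rw [h5]
        omega
  · -- a small class
    let n : Emb Z → ℕ := fun x => if Link (ℂ ≃+* ℂ) conjE w x then e x else 0
    have hn : (fun x => (n x : ℤ)) = restrC (ℂ ≃+* ℂ) conjE w (fun x => (e x : ℤ)) := by
      funext x
      change ((if Link (ℂ ≃+* ℂ) conjE w x then e x else 0 : ℕ) : ℤ) =
        if Link (ℂ ≃+* ℂ) conjE w x then (e x : ℤ) else 0
      split_ifs <;> rfl
    refine AddSubgroup.subset_closure ⟨n, (hWrel n).2 ?_, Or.inr (Or.inl ⟨S, hS, fun x hx => ?_⟩),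
      fun x => (congrFun hn x).symm⟩
    · rw [hn]
      exact rel_restrC hG hW hd w
    · refine h1 x ?_
      by_contra hcon
      exact hx (if_neg hcon)

/-- **The standard conjecture of Hodge type in small codimensions.** -/
theorem main {r : ℕ} (hZ : HasGoodClasses r Z) {Ω : Type} [Field Ω] [IsAlgClosed Ω] [CharZero Ω]
    {C : (Y : RedAV p ν) → (κ : Type) → ((TM Ω Y) [⋀^κ]→ₗ[Ω] Ω) → Prop}
    (hC : IsCycleSystem Ω C) (hR : IsRosatiPositive Ω C) (hT : AreTate Ω C) {Y : RedAV p ν}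
    (hY : IsPowersTimesSupersingular Z Y) : HodgeTypeUpTo r Ω C Y :=
  hodge_upto hC hR hT (elementary_of_good hZ) hY

end Pool.Agent.V7H82.LR
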