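import Mathlib
import Pool.Agent.V7H82.LR.Stm

/-!
# The exceptional numbers
-/

namespace Pool.Agent.V7H82.LR

theorem rank_le {θ R b : ℕ} (hθ : 2 ≤ θ) (hb : 1 < b) (h1 : R * (θ ^ 2 + (b - 1)) = b * θ ^ 2)
    (h2 : 2 * b ≤ R * (R + 1)) : R + 2 ≤ θ ^ 2 := by
  obtain ⟨b', rfl⟩ : ∃ b', b = b' + 1 := ⟨b - 1, by omega⟩
  rw [Nat.add_sub_cancel] at h1
  set t := θ ^ 2 with ht
  have ht4 : 4 ≤ t := by rw [ht]; nlinarith
  by_contra hcon
  have h3 : R + 1 = t ∨ t ≤ R := by omega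
  rcases h3 with h3 | h3
  · -- `R = t - 1`
    have h4 : (t + b') * R = (b' + 1) * t := by rw [mul_comm]; exact h1
    rw [← h3] at h4
    have h5 : b' + 1 = R * R := by nlinarith
    have h6 : R * R + R < 2 * (R * R) := by nlinarith
    nlinarith
  · have h4 : t * (t + b') ≤ R * (t + b') := Nat.mul_le_mul_right _ h3
    nlinarith

/-- Large numbers are not exceptional. -/
theorem not_hasFrame_of_large {r b : ℕ} (h : 2 * r * (r - 1) * ((2 * r - 1) ^ 2 - 2) < b) :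
    ¬ HasFrame r b := by
  rintro ⟨hb, θ, R, hθ, hθr, -, h1, h2⟩
  have h3 := rank_le hθ hb h1 h2
  obtain ⟨k, rfl⟩ : ∃ k, r = k + 2 := ⟨r - 2, by omega⟩
  have h4 : θ ≤ 2 * k + 3 := by omega
  have h5 : θ ^ 2 ≤ (2 * k + 3) ^ 2 := Nat.pow_le_pow_left h4 2
  have e1 : 2 * (k + 2) - 1 = 2 * k + 3 := by omega
  have e2 : k + 2 - 1 = k + 1 := by omega
  rw [e1, e2] at h
  have h6 : R ≤ (2 * k + 3) ^ 2 - 2 := by omega
  have e3 : (2 * k + 3) ^ 2 - 2 + 1 = 4 * (k + 2) * (k + 1) := by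
    have : (2 * k + 3) ^ 2 = 4 * (k + 2) * (k + 1) + 1 := by ring
    have h8 : 8 ≤ 4 * (k + 2) * (k + 1) := by nlinarith
    omega
  set m := (2 * k + 3) ^ 2 - 2 with hm
  have h7 : R * (R + 1) ≤ m * (m + 1) := Nat.mul_le_mul h6 (by omega)
  rw [e3] at h7
  nlinarith

/-- The exceptional numbers for `r = 2`. -/
theorem hasFrame_two {b : ℕ} :
    HasFrame 2 b ↔ b = 3 ∨ b = 4 ∨ b = 10 ∨ b = 16 ∨ b = 28 := by
  constructor
  · rintro ⟨hb, θ, R, hθ, hθr, hdvd, h1, h2⟩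
    have h3 := rank_le hθ hb h1 h2
    obtain ⟨b', rfl⟩ : ∃ b', b = b' + 1 := ⟨b - 1, by omega⟩
    rw [Nat.add_sub_cancel] at h1
    have h4 : θ = 2 ∨ θ = 3 := by omega
    rcases h4 with rfl | rfl
    · have h5 : R ≤ 2 := by omega
      interval_cases R <;> omega
    · have h5 : R ≤ 7 := by omega
      interval_cases R <;> omega
  · rintro (rfl | rfl | rfl | rfl | rfl)
    · exact ⟨by norm_num, 2, 2, by norm_num, by norm_num, by norm_num, by norm_num, by norm_num⟩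
    · exact ⟨by norm_num, 3, 3, by norm_num, by norm_num, by norm_num, by norm_num, by norm_num⟩
    · exact ⟨by norm_num, 3, 5, by norm_num, by norm_num, by norm_num, by norm_num, by norm_num⟩
    · exact ⟨by norm_num, 3, 6, by norm_num, by norm_num, by norm_num, by norm_num, by norm_num⟩
    · exact ⟨by norm_num, 3, 7, by norm_num, by norm_num, by norm_num, by norm_num, by norm_num⟩

end Pool.Agent.V7H82.LR
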