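import Pool.Agent.V7H82.LR.ClsDefs

/-!
# Varieties over finite fields covered by abelian varieties: definitions
-/

set_option autoImplicit false

namespace Pool.Agent.V7H82.LR

open Module Pool.Agent.W495.TA
open scoped TensorProduct

noncomputable section

/-- A variety `X` over the field with `q = p ^ a` elements with a good proper cover by the abelian
variety `Y` (`X' ⊆ Y` open, `π : X' → X` proper and surjective, `α : X' → Y` the inclusion), in the
homological degree `2 (dim Y - m)`: the homology `H = H_{2j}(X, j)`, `j = dim Y - m`, with coefficients
in `Ω` with the Frobenius `Φ`, the subspace spanned by the classes of cycles of dimension `j` (on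
the extension of `X` to an algebraic closure), and the map `push = π_* α^*` from the classes of
codimension `m` on `Y`. It is compatible with Frobenius (for a class `f` on `Y`, twisted `m` times,
the pull-back of the untwisted form along the Frobenius endomorphism is `q ^ m` times the action of
`Φ`); its image contains the part of weight `0`, hence each class fixed by a power of `Φ`; and it
maps the algebraic classes `Alg` to classes of cycles. -/
structure Cover {p : ℕ} [Fact p.Prime] {ν : PadicAlgCl p ≃+* ℂ} (Ω : Type) [Field Ω] [CharZero Ω]
    (Y : RedAV p ν) (m : ℕ) where
  H : Type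
  [group : AddCommGroup H]
  [module : Module Ω H]
  Φ : H →ₗ[Ω] H
  cycles : Submodule Ω H
  push : Cls Ω Y m → H
  push_comb : ∀ c f g h, IsComb c f g h → push h = c • push f + push g
  push_frob : ∀ f g, IsPullF f g → push g = ((p : Ω) ^ Y.a) ^ m • Φ (push f)
  weight : ∀ (s : ℕ) (x : H), 0 < s → Φ^[s] x = x → ∃ f, push f = x
  push_alg : ∀ f, Alg Ω Y (Fin (2 * m)) f → push f ∈ cycles

attribute [instance] Cover.group Cover.module

end

end Pool.Agent.V7H82.LR
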