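import Pool.Agent.V7H82.LR.Tate
import Pool.Agent.V7H82.LR.CoverDefs

/-!
# Varieties over finite fields covered by abelian varieties
-/

set_option autoImplicit false
set_option linter.unusedSectionVars false
set_option linter.unusedVariables false

namespace Pool.Agent.V7H82.LR

open NumberField Pool.Agent.H204R3.CM Pool.Agent.W547.KB Pool.Agent.W547.LD Module
  Pool.Agent.W495.TA Pool.Agent.TH117.BL Pool.Agent.N202.QR Polynomial
open scoped TensorProduct

noncomputable section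

section

variable {p : ℕ} [Fact p.Prime] {ν : PadicAlgCl p ≃+* ℂ}
  {Ω : Type} [Field Ω] [CharZero Ω]

/-- The operator of a power of the Frobenius endomorphism on the forms. -/
def frobOp (Y : RedAV p ν) (s : ℕ) (κ : Type) :
    Module.End Ω ((TM Ω Y) [⋀^κ]→ₗ[Ω] Ω) where
  toFun f := f.compLinearMap (F Ω Y ^ s)
  map_add' f g := rfl
  map_smul' c f := rfl

theorem frobOp_apply (Y : RedAV p ν) (s : ℕ) {κ : Type} (f : (TM Ω Y) [⋀^κ]→ₗ[Ω] Ω)
    (v : κ → TM Ω Y) : frobOp Y s κ f v = f (fun k => (F Ω Y ^ s) (v k)) := rfl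

variable {L : Type} [Field L] [NumberField L] {jO : L →+* Ω} {Y : RedAV p ν}

/-- The eigenvalue belonging to a family of weights. -/
def ev (jO : L →+* Ω) {Y : RedAV p ν} (s : ℕ) {κ : Type} [Fintype κ] (I : κ → Wt Y.X L) : Ω :=
  ∏ k, (jO ((I k).2 (Y.π (I k).1))) ^ s

theorem frobOp_e [Finite (Wt Y.X L)] (e : Basis (Wt Y.X L) Ω (TM Ω Y))
    (h1 : ∀ w, co jO w (e w) = 1) (h2 : ∀ w w', w ≠ w' → co jO w (e w') = 0) (s : ℕ)
    {κ : Type} [Fintype κ] (f : (TM Ω Y) [⋀^κ]→ₗ[Ω] Ω) (I : κ → Wt Y.X L) :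
    frobOp Y s κ f (fun k => e (I k)) = ev jO s I * f (fun k => e (I k)) := by
  rw [frobOp_apply]
  have h4 : (fun k => (F Ω Y ^ s) (e (I k))) =
      fun k => ((jO ((I k).2 (Y.π (I k).1))) ^ s) • e (I k) :=
    funext fun k => F_pow_e jO e h1 h2 (I k) s
  rw [h4, AlternatingMap.map_smul_univ, smul_eq_mul]
  rfl

theorem aeval_e [Finite (Wt Y.X L)] (e : Basis (Wt Y.X L) Ω (TM Ω Y))
    (h1 : ∀ w, co jO w (e w) = 1) (h2 : ∀ w w', w ≠ w' → co jO w (e w') = 0) (s : ℕ)
    {κ : Type} [Fintype κ] (P : Polynomial Ω) (f : (TM Ω Y) [⋀^κ]→ₗ[Ω] Ω) (I : κ → Wt Y.X L) :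
    (aeval (frobOp Y s κ) P f) (fun k => e (I k)) = P.eval (ev jO s I) * f (fun k => e (I k)) := by
  induction P using Polynomial.induction_on' generalizing f with
  | add P Q hP hQ =>
    rw [map_add, LinearMap.add_apply, AlternatingMap.add_apply, hP, hQ, Polynomial.eval_add, add_mul]
  | monomial n c =>
    rw [aeval_monomial, Polynomial.eval_monomial]
    have h3 : ∀ n : ℕ, ((frobOp Y s κ ^ n) f) (fun k => e (I k)) =
        ev jO s I ^ n * f (fun k => e (I k)) := by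
      intro n
      induction n with
      | zero => rw [pow_zero, pow_zero, one_mul]; rfl
      | succ n ih =>
        rw [pow_succ']
        change frobOp Y s κ ((frobOp Y s κ ^ n) f) (fun k => e (I k)) = _
        rw [frobOp_e e h1 h2, ih, pow_succ']
        ring
    change (c • ((frobOp Y s κ ^ n) f)) (fun k => e (I k)) = _
    rw [AlternatingMap.smul_apply, h3, smul_eq_mul, mul_assoc]

/-- The Frobenius operator on the forms is annihilated by a polynomial with simple roots. -/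
theorem aeval_prod [Finite (Wt Y.X L)] (e : Basis (Wt Y.X L) Ω (TM Ω Y))
    (h1 : ∀ w, co jO w (e w) = 1) (h2 : ∀ w w', w ≠ w' → co jO w (e w') = 0) (s : ℕ)
    {κ : Type} [Fintype κ] (P : Polynomial Ω) (hP : ∀ I : κ → Wt Y.X L, P.eval (ev jO s I) = 0) :
    aeval (frobOp (Ω := Ω) Y s κ) P = 0 := by
  refine LinearMap.ext fun f => ?_
  refine Basis.ext_alternating e fun I _ => ?_
  have h := aeval_e e h1 h2 s P f I
  rw [h, hP, zero_mul]
  rfl

theorem exists_tate_aux {j : L →+* ℂ} (hY : Big Y.X j) (jO : L →+* Ω) {m : ℕ} {H : Type}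
    [AddCommGroup H] [Module Ω H] (Φ : H →ₗ[Ω] H)
    (push : ((TM Ω Y) [⋀^Fin (2 * m)]→ₗ[Ω] Ω) →ₗ[Ω] H)
    (hfrob : ∀ f, push (f.compLinearMap (F Ω Y)) = ((p : Ω) ^ Y.a) ^ m • Φ (push f)) (s : ℕ)
    (x : H) (hx : (Φ ^ s) x = x) (f : (TM Ω Y) [⋀^Fin (2 * m)]→ₗ[Ω] Ω) (hf : push f = x) :
    ∃ f : (TM Ω Y) [⋀^Fin (2 * m)]→ₗ[Ω] Ω, IsTateClass Ω Y s m f ∧ push f = x := by
  classical
  have hfin := Pool.Agent.W67.TA.finite_wt j hY
  let _ : Fintype (Wt Y.X L) := Fintype.ofFinite _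
  obtain ⟨e, h1, h2⟩ := Pool.Agent.W67.TA.basis p ν Ω L j jO Y hY
  set μ : Ω := ((p : Ω) ^ Y.a) ^ (m * s) with hμ
  -- Frobenius
  have hpush : ∀ (n : ℕ) (g : (TM Ω Y) [⋀^Fin (2 * m)]→ₗ[Ω] Ω),
      push (frobOp Y n _ g) = ((p : Ω) ^ Y.a) ^ (m * n) • (Φ ^ n) (push g) := by
    intro n
    induction n with
    | zero =>
      intro g
      rw [mul_zero, pow_zero, pow_zero, one_smul]
      rfl
    | succ n ih =>
      intro g
      have h3 : frobOp Y (n + 1) (Fin (2 * m)) g = (frobOp Y n _ g).compLinearMap (F Ω Y) := by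
        ext v
        rfl
      rw [h3, hfrob, ih, map_smul, smul_smul, pow_succ']
      rw [show m * (n + 1) = m + m * n by ring, pow_add]
      rfl
  have hpush2 : ∀ g : (TM Ω Y) [⋀^Fin (2 * m)]→ₗ[Ω] Ω, ∀ c : Ω, push g = c • x →
      push (frobOp Y s _ g) = (μ * c) • x := by
    intro g c hg
    rw [hpush, hg, map_smul, hx, smul_smul]
  have hpush3 : ∀ P : Polynomial Ω, push (aeval (frobOp Y s (Fin (2 * m))) P f) = P.eval μ • x := by
    intro P
    induction P using Polynomial.induction_on' with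
    | add P Q hP hQ =>
      rw [map_add, LinearMap.add_apply, map_add, hP, hQ, Polynomial.eval_add, add_smul]
    | monomial n c =>
      rw [aeval_monomial, Polynomial.eval_monomial]
      have h3 : ∀ n : ℕ, push ((frobOp Y s (Fin (2 * m)) ^ n) f) = μ ^ n • x := by
        intro n
        induction n with
        | zero =>
          rw [pow_zero, pow_zero, one_smul]
          exact hf
        | succ n ih =>
          rw [pow_succ']
          change push (frobOp Y s _ ((frobOp Y s _ ^ n) f)) = _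
          rw [hpush2 _ _ ih, pow_succ']
      change push (c • ((frobOp Y s (Fin (2 * m)) ^ n) f)) = _
      rw [map_smul, h3, smul_smul]
  -- the projector
  let S : Finset Ω := (Finset.univ.image fun I : Fin (2 * m) → Wt Y.X L => ev jO s I).erase μ
  let P : Polynomial Ω := ∏ l ∈ S, (Polynomial.X - C l)
  have hP0 : P.eval μ ≠ 0 := by
    rw [Polynomial.eval_prod]
    refine Finset.prod_ne_zero_iff.2 fun l hl => ?_
    rw [Polynomial.eval_sub, Polynomial.eval_X, Polynomial.eval_C, sub_ne_zero]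
    exact (Finset.ne_of_mem_erase hl).symm
  have hP1 : aeval (frobOp (Ω := Ω) Y s (Fin (2 * m))) ((Polynomial.X - C μ) * P) = 0 := by
    refine aeval_prod e h1 h2 s _ fun I => ?_
    rw [Polynomial.eval_mul, mul_eq_zero]
    by_cases h3 : ev jO s I = μ
    · left
      rw [h3, Polynomial.eval_sub, Polynomial.eval_X, Polynomial.eval_C, sub_self]
    · right
      rw [Polynomial.eval_prod]
      refine Finset.prod_eq_zero (Finset.mem_erase.2 ⟨h3, Finset.mem_image_of_mem _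
        (Finset.mem_univ I)⟩) ?_
      rw [Polynomial.eval_sub, Polynomial.eval_X, Polynomial.eval_C, sub_self]
  refine ⟨(P.eval μ)⁻¹ • aeval (frobOp Y s (Fin (2 * m))) P f, ?_, ?_⟩
  · intro v
    have h3 := congrArg (fun A => (A f) v) hP1
    simp only [map_mul, map_sub, aeval_X, aeval_C] at h3
    have h4 : frobOp Y s (Fin (2 * m)) (aeval (frobOp Y s (Fin (2 * m))) P f) v =
        μ * (aeval (frobOp Y s (Fin (2 * m))) P f) v := sub_eq_zero.1 h3
    rw [AlternatingMap.smul_apply, AlternatingMap.smul_apply, smul_eq_mul, smul_eq_mul]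
    rw [frobOp_apply] at h4
    rw [h4]
    ring
  · rw [map_smul, hpush3, smul_smul, inv_mul_cancel₀ hP0, one_smul]

/-- **Semisimplicity.** Each class on `X` fixed by a power of Frobenius is the image of a Tate
class on `Y`. -/
theorem exists_tate {j : L →+* ℂ} (hY : Big Y.X j) (jO : L →+* Ω) {m : ℕ} (X : Cover Ω Y m)
    (s : ℕ) (hs : 0 < s) (x : X.H) (hx : X.Φ^[s] x = x) :
    ∃ f : (TM Ω Y) [⋀^Fin (2 * m)]→ₗ[Ω] Ω, IsTateClass Ω Y s m f ∧ X.push f = x := by
  obtain ⟨f, hf⟩ := X.weight s x hs hx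
  rw [← Module.End.pow_apply] at hx
  have h0 : X.push (0 : (TM Ω Y) [⋀^Fin (2 * m)]→ₗ[Ω] Ω) = 0 := by
    have h1 := X.push_comb 1 (0 : (TM Ω Y) [⋀^Fin (2 * m)]→ₗ[Ω] Ω)
      (0 : (TM Ω Y) [⋀^Fin (2 * m)]→ₗ[Ω] Ω) (0 : (TM Ω Y) [⋀^Fin (2 * m)]→ₗ[Ω] Ω) (fun v => by
        change (0 : Ω) = 1 * 0 + 0
        rw [mul_zero, add_zero])
    rw [one_smul] at h1
    exact left_eq_add.1 h1
  let push : ((TM Ω Y) [⋀^Fin (2 * m)]→ₗ[Ω] Ω) →ₗ[Ω] X.H :=
    { toFun := X.push
      map_add' := fun f g => by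
        have h1 := X.push_comb 1 f g (f + g) fun v => by
          change f v + g v = 1 * f v + g v
          rw [one_mul]
        rw [h1, one_smul]
      map_smul' := fun c f => by
        have h1 := X.push_comb c f (0 : (TM Ω Y) [⋀^Fin (2 * m)]→ₗ[Ω] Ω) (c • f) fun v => by
          change c * f v = c * f v + 0
          rw [add_zero]
        rw [h1, h0, add_zero]
        rfl }
  exact exists_tate_aux hY jO X.Φ push (fun f => X.push_frob f _ fun v => rfl) s x hx f hf

end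

/-- **Fixed classes on varieties covered by abelian varieties.** -/
theorem cover_dim {p : ℕ} [Fact p.Prime] {ν : PadicAlgCl p ≃+* ℂ} {r : ℕ} (Z : RedAV p ν)
    (hrel : HasElementaryUpTo r Z) (Ω : Type) [Field Ω] [IsAlgClosed Ω] [CharZero Ω]
    (Y : RedAV p ν) (hY : IsPowersTimesSupersingular Z Y) (m : ℕ)
    (hm : m ≤ r ∨ finrank ℚ Y.X.H1 ≤ 2 * (m + r)) (X : Cover Ω Y m) (s : ℕ) (hs : 0 < s)
    (x : X.H) (hx : X.Φ^[s] x = x) : x ∈ X.cycles := by
  obtain ⟨L, _, _, _, _, j, hj⟩ := exists_cm ((Y.X.prod Z.X).prod (single (kp p)))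
  have hYj : Big Y.X j := fun i ψ => hj (Sum.inl (Sum.inl i)) ψ
  let jO : L →+* Ω := ((IsAlgClosed.lift : L →ₐ[ℚ] Ω) : L →+* Ω)
  obtain ⟨f, hf, hfx⟩ := exists_tate hYj jO X s hs x hx
  rw [← hfx]
  exact X.push_alg f (tate_dim Z hrel Ω Y hY s m hs hm f hf)

end

end Pool.Agent.V7H82.LR
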