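import Pool.Agent.V7H82.LR.Stm

/-!
# Classes of Frobenius eigenvalues which are towers over a subfield: definitions
-/

set_option autoImplicit false

namespace Pool.Agent.V7H82.LR

open NumberField Module
open Pool.Agent.W495.TA Pool.Agent.TH117.BL Pool.Agent.TH117.PO Pool.Agent.N202.QR

variable {p : ℕ} [Fact p.Prime] {ν : PadicAlgCl p ≃+* ℂ} {Z : RedAV p ν}

/-- The embeddings `x` and `y` belong to the CM field of the factor `i` and agree on its subfield
`F`. -/
def AgreeOn {i : Z.X.I} (F : IntermediateField ℚ (Z.X.factor i).E) (x y : Emb Z) : Prop :=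
  ∃ φ ψ : (Z.X.factor i).E →+* ℂ, x = ⟨i, φ⟩ ∧ y = ⟨i, ψ⟩ ∧ ∀ t ∈ F, φ t = ψ t

/-- The automorphism `σ` fixes all embeddings in the class of `w` which agree on `F` neither with
`x` nor with the complex conjugate of `x`. -/
def FixesOthers {i : Z.X.I} (F : IntermediateField ℚ (Z.X.factor i).E) (w x : Emb Z)
    (σ : ℂ ≃+* ℂ) : Prop :=
  ∀ z : Emb Z, IsLinked w z → ¬ AgreeOn F x z → ¬ AgreeOn F (conjE x) z → moveE σ z = z

/-- Any two embeddings in the class of `w` which agree on `F` can be moved to any two other
embeddings which agree with them on `F`, by automorphisms which fix the others. -/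
def HomogeneousOver {i : Z.X.I} (F : IntermediateField ℚ (Z.X.factor i).E) (w : Emb Z) : Prop :=
  ∀ x y x' y' : Emb Z, IsLinked w x → AgreeOn F x y → AgreeOn F x x' → AgreeOn F x y' → y ≠ x →
    y' ≠ x' → ∃ σ : ℂ ≃+* ℂ, FixesOthers F w x σ ∧
      ((moveE σ x = x' ∧ moveE σ y = y') ∨ (moveE σ x = y' ∧ moveE σ y = x'))

/-- The number of the embeddings which agree with `w` on `F` (the degree over `F`) is a prime
number, and for all `x` in the class of `w` the embeddings which agree with `x` on `F` are permuted
cyclically by an automorphism which fixes the others. -/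
def PrimeOver {i : Z.X.I} (F : IntermediateField ℚ (Z.X.factor i).E) (w : Emb Z) : Prop :=
  (Nat.card {y : Emb Z // AgreeOn F w y}).Prime ∧ ∀ x : Emb Z, IsLinked w x →
    ∃ σ : ℂ ≃+* ℂ, FixesOthers F w x σ ∧ ∀ z : Emb Z, AgreeOn F x z ↔ ∃ k : ℕ, moveE (σ ^ k) x = z

/-- The subfield `F` is not totally real: complex conjugation moves some element of `F`. -/
def HasNonreal {i : Z.X.I} (F : IntermediateField ℚ (Z.X.factor i).E) : Prop :=
  ∃ t ∈ F, IsCMField.complexConj _ t ≠ t

/-- No power of the Frobenius endomorphism of the factor lies in a proper subfield over `F`: its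
conjugates at the embeddings which agree with `w` on `F` have distinct `n`-th powers (up to `w`). -/
def GeneratesOver {i : Z.X.I} (F : IntermediateField ℚ (Z.X.factor i).E) (w : Emb Z) : Prop :=
  ∀ y : Emb Z, AgreeOn F w y → y ≠ w → ∀ n : ℕ, 0 < n → eig Z y ^ n ≠ eig Z w ^ n

/-- The class of `w` is a tower over a CM subfield `F` of degree larger than `2 r` of the CM field of
one factor: it contains only embeddings of this field, the extension is doubly homogeneous or of
prime degree, also over the composite of the other conjugates, and no power of the Frobenius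
endomorphism of the factor lies in a proper subfield over `F`. -/
def IsTowerClass (r : ℕ) (w : Emb Z) : Prop :=
  (∀ x : Emb Z, IsLinked w x → x.1 = w.1) ∧
  ∃ F : IntermediateField ℚ (Z.X.factor w.1).E, HasNonreal F ∧
    2 * r < Nat.card {y : Emb Z // AgreeOn F w y} ∧ GeneratesOver F w ∧
    (HomogeneousOver F w ∨ PrimeOver F w)

/-- Each class of linked embeddings is big, a tower, or small. -/
def HasGoodClassesT (r : ℕ) (Z : RedAV p ν) : Prop :=
  ∀ w : Emb Z, IsBigClass r w ∨ IsTowerClass r w ∨ IsSmallClass w

end Pool.Agent.V7H82.LR
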