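import Mathlib
import Pool.Agent.V7H82.LR.Cls
import Pool.Agent.TH127.SC.Cyc

/-!
# Short relations in classes which are towers over a subfield

The class of `y₀` is divided into blocks (for instance the embeddings which agree on a subfield), the
involution moves every block, and the elements of a block are permuted doubly homogeneously by
automorphisms which fix the other blocks (except the conjugate block). Then the odd part of a
relation is constant on the blocks; so short relations are symmetric.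
-/

set_option linter.unusedSectionVars false
set_option linter.unusedVariables false

namespace Pool.Agent.V7H82.LR

open Pool.Agent.TH127.SC Pool.Agent.V7H82.TT Pool.Agent.V7H82.HT MulAction
  Pool.Agent.V7H82.TG Pool.Agent.W527

variable {Γ Y : Type*} [Group Γ] [MulAction Γ Y] {cb : Y → Y} [Fintype Y] {W : Y → ℤ}
  (hcb : ∀ y, cb (cb y) = y) (hne : ∀ y, cb y ≠ y)
  (hG : ∀ (g : Γ) (y : Y), g • cb y = cb (g • y)) (hW : ∀ y, W (cb y) = -W y)

/-- The conditions on the blocks in the class of `y₀`. -/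
structure Tower (Γ : Type*) {Y : Type*} [Group Γ] [MulAction Γ Y] (cb : Y → Y) (bl : Y → Y → Prop)
    (y₀ : Y) : Prop where
  eqv : Equivalence bl
  smul : ∀ (g : Γ) (x y : Y), bl x y → bl (g • x) (g • y)
  cbb : ∀ x y, bl x y → bl (cb x) (cb y)
  mv : ∀ x, Link Γ cb y₀ x → ¬ bl x (cb x)
  sub : ∀ x y, Link Γ cb y₀ x → bl x y → Link Γ cb y₀ y
  trans : ∀ z, Link Γ cb y₀ z → ∃ g : Γ, g • y₀ = z

/-- The elements of the blocks are permuted doubly homogeneously, the other blocks are fixed. -/
def TowerPair (Γ : Type*) {Y : Type*} [Group Γ] [MulAction Γ Y] (cb : Y → Y) (bl : Y → Y → Prop)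
    (y₀ : Y) : Prop :=
  ∀ x y x' y', Link Γ cb y₀ x → bl x y → bl x x' → bl x y' → y ≠ x → y' ≠ x' →
    ∃ σ : Γ, (∀ z, Link Γ cb y₀ z → ¬ bl x z → ¬ bl (cb x) z → σ • z = z) ∧
      ((σ • x = x' ∧ σ • y = y') ∨ (σ • x = y' ∧ σ • y = x'))

/-- The elements of the blocks are permuted cyclically, and their number is a prime number; the
other blocks are fixed. -/
def TowerCyc (Γ : Type*) {Y : Type*} [Group Γ] [MulAction Γ Y] (cb : Y → Y) (bl : Y → Y → Prop)
    (y₀ : Y) (b : ℕ) : Prop :=
  b.Prime ∧ ∀ x, Link Γ cb y₀ x →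
    ∃ σ : Γ, (∀ z, Link Γ cb y₀ z → ¬ bl x z → ¬ bl (cb x) z → σ • z = z) ∧
      σ ^ b • x = x ∧ σ • x ≠ x ∧ ∀ z, bl x z ↔ ∃ k : ℕ, σ ^ k • x = z

variable {bl : Y → Y → Prop} {y₀ : Y}

open Classical in
include hcb hne hG hW in
/-- Moving a relation inside a block. -/
theorem tower_diff (hT : Tower Γ cb bl y₀) {u : Y → ℤ} (huodd : ∀ y, u (cb y) = -u y)
    (husupp : ∀ y, ¬ Link Γ cb y₀ y → u y = 0) (hu : Rel Γ W u) {x : Y} (hx : Link Γ cb y₀ x)
    {σ : Γ} (hσ : ∀ z, Link Γ cb y₀ z → ¬ bl x z → ¬ bl (cb x) z → σ • z = z)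
    (hσx : bl x (σ • x)) :
    ∑ z, (if bl x z then u (σ • z) - u z else 0) = 0 ∧
    Rel Γ W (fun z => u (σ • z) - u z) ∧
    ∀ f : Y → ℤ, (∀ z, f (cb z) = -f z) → ∑ z, (u (σ • z) - u z) * f z =
      2 * ∑ z, if bl x z then (u (σ • z) - u z) * f z else 0 := by
  have hblσ : ∀ z, bl x (σ • z) ↔ bl x z := by
    intro z
    constructor
    · intro h
      have h1 : bl (σ • x) (σ • z) := hT.eqv.trans (hT.eqv.symm hσx) h
      have h2 := hT.smul σ⁻¹ _ _ h1
      rwa [inv_smul_smul, inv_smul_smul] at h2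
    · intro h
      exact hT.eqv.trans hσx (hT.smul σ _ _ h)
  let v : Y → ℤ := fun z => u (σ • z) - u z
  have hv : Rel Γ W v := by
    intro g
    have h1 : ∑ z, u (σ • z) * W (g • z) = 0 := by
      have h2 := hu (g * σ⁻¹)
      rw [← h2]
      refine Fintype.sum_equiv (MulAction.toPerm σ) _ _ fun z => ?_
      rw [MulAction.toPerm_apply, mul_smul, inv_smul_smul]
    simp only [v, sub_mul, Finset.sum_sub_distrib, h1, hu g, sub_zero]
  have hvodd : ∀ z, v (cb z) = -v z := by
    intro z
    simp only [v, hG, huodd]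
    ring
  have hLσ : ∀ z, ¬ Link Γ cb y₀ z → ¬ Link Γ cb y₀ (σ • z) := by
    intro z hz h
    apply hz
    have h1 : Link Γ cb y₀ (σ • x) := hT.sub x _ hx hσx
    have h2 : Link Γ cb (σ • x) (σ • z) := link_trans (link_symm h1) h
    have h3 := link_smul hG σ⁻¹ h2
    rw [inv_smul_smul, inv_smul_smul] at h3
    exact link_trans hx h3
  have hv0 : ∀ z, ¬ bl x z → ¬ bl (cb x) z → v z = 0 := by
    intro z h1 h2
    by_cases hz : Link Γ cb y₀ z
    · simp only [v, hσ z hz h1 h2, sub_self]
    · simp only [v, husupp z hz, husupp _ (hLσ z hz), sub_self]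
  have hdisj : ∀ z, bl x z → ¬ bl (cb x) z := by
    intro z h1 h2
    exact hT.mv x hx (hT.eqv.trans h1 (hT.eqv.symm h2))
  have hcbb : ∀ z, bl (cb x) (cb z) ↔ bl x z := by
    intro z
    constructor
    · intro h
      have h1 := hT.cbb _ _ h
      rwa [hcb, hcb] at h1
    · exact hT.cbb _ _
  -- the sum of `v` over the block
  have hvsum : ∑ z, (if bl x z then v z else 0) = 0 := by
    have h1 : ∑ z, (if bl x z then u (σ • z) else 0) = ∑ z, if bl x z then u z else 0 := by
      refine Fintype.sum_equiv (MulAction.toPerm σ) _ _ fun z => ?_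
      rw [MulAction.toPerm_apply]
      simp only [hblσ]
    have h2 : ∀ z, (if bl x z then v z else 0) =
        (if bl x z then u (σ • z) else 0) - if bl x z then u z else 0 := by
      intro z
      split_ifs <;> simp [v]
    rw [Finset.sum_congr rfl fun z _ => h2 z, Finset.sum_sub_distrib, h1, sub_self]
  refine ⟨hvsum, hv, fun f hf => ?_⟩
  change ∑ z, v z * f z = 2 * ∑ z, if bl x z then v z * f z else 0
  have h2 : ∀ z, v z * f z = (if bl x z then v z * f z else 0) +
      if bl (cb x) z then v z * f z else 0 := by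
    intro z
    by_cases hz : bl x z
    · rw [if_pos hz, if_neg (hdisj z hz), add_zero]
    · by_cases hz' : bl (cb x) z
      · rw [if_neg hz, if_pos hz', zero_add]
      · rw [if_neg hz, if_neg hz', hv0 z hz hz', zero_mul, add_zero]
  have h3 : ∑ z, (if bl (cb x) z then v z * f z else 0) =
      ∑ z, if bl x z then v z * f z else 0 := by
    rw [← Fintype.sum_equiv (Function.Involutive.toPerm cb hcb)
      (fun z => if bl x z then v z * f z else 0) _ fun z => ?_]
    change _ = if bl (cb x) (cb z) then v (cb z) * f (cb z) else 0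
    simp only [hcbb, hvodd, hf, neg_mul_neg]
  rw [Finset.sum_congr rfl fun z _ => h2 z, Finset.sum_add_distrib, h3]
  ring

include hcb hne hG hW in
/-- Moving a relation inside a doubly homogeneous block. -/
theorem tower_move (hT : Tower Γ cb bl y₀) (hP : TowerPair Γ cb bl y₀) {u : Y → ℤ}
    (huodd : ∀ y, u (cb y) = -u y)
    (husupp : ∀ y, ¬ Link Γ cb y₀ y → u y = 0) (hu : Rel Γ W u) {x : Y} (hx : Link Γ cb y₀ x)
    (hnd : ∀ z, bl x z → z ≠ x → ∃ g : Γ, W (g • z) ≠ W (g • x)) {w : Y} (hw : bl x w) (hwx : w ≠ x)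
    {σ : Γ} (hσ : ∀ z, Link Γ cb y₀ z → ¬ bl x z → ¬ bl (cb x) z → σ • z = z)
    (hσx : bl x (σ • x)) {a : Y} (ha : bl x a) : u (σ • a) = u a := by
  classical
  obtain ⟨hvsum, hv, hsum⟩ := tower_diff hcb hne hG hW hT huodd husupp hu hx hσ hσx
  let v : Y → ℤ := fun z => u (σ • z) - u z
  -- the kernel is constant
  have hker : ∀ z z', bl x z → bl x z' → z ≠ z' → ker Γ W z z' = ker Γ W w x := by
    intro z z' hz hz' hzz
    obtain ⟨τ, -, h | h⟩ := hP x w z z' hx hw hz hz' hwx hzz.symm
    · rw [← h.1, ← h.2, ker_inv, ker_symm]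
    · rw [← h.1, ← h.2, ker_inv]
  have hdiag : ∀ z, Link Γ cb y₀ z → ker Γ W z z = ker Γ W y₀ y₀ := by
    intro z hz
    obtain ⟨g, rfl⟩ := hT.trans z hz
    exact ker_inv g y₀ y₀
  have hαβ : ker Γ W w x ≠ ker Γ W x x := by
    intro h
    obtain ⟨g, hg⟩ := hnd w hw hwx
    apply hg
    refine (ker_eq_imp (x := x) (y := w) ?_ ?_ g).symm
    · rw [hdiag x hx, hdiag w (hT.sub x w hx hw)]
    · rw [ker_symm, h]
  -- evaluation at `a`
  have h1 := ker_rel hv a
  rw [hsum (fun z => ker Γ W z a) fun z => ker_odd hG hW z a] at h1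
  have h4 : ∑ z, (if bl x z then v z * ker Γ W z a else 0) = 0 := by
    change 2 * ∑ z, (if bl x z then v z * ker Γ W z a else 0) = 0 at h1
    omega
  have h5 : ∀ z, (if bl x z then v z * ker Γ W z a else 0) =
      (if bl x z then v z else 0) * ker Γ W w x +
        if z = a then v a * (ker Γ W a a - ker Γ W w x) else 0 := by
    intro z
    by_cases hza : z = a
    · subst hza
      rw [if_pos ha, if_pos ha, if_pos rfl]
      ring
    · rw [if_neg hza, add_zero]
      by_cases hz : bl x z
      · rw [if_pos hz, if_pos hz, hker z a hz ha hza]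
      · rw [if_neg hz, if_neg hz, zero_mul]
  have hvsum' : ∑ z, (if bl x z then v z else 0) = 0 := hvsum
  rw [Finset.sum_congr rfl fun z _ => h5 z, Finset.sum_add_distrib, ← Finset.sum_mul, hvsum',
    zero_mul, zero_add, Finset.sum_ite_eq' Finset.univ, if_pos (Finset.mem_univ _)] at h4
  have h6 : ker Γ W a a - ker Γ W w x ≠ 0 := by
    rw [hdiag a (hT.sub x a hx ha), ← hdiag x hx]
    exact sub_ne_zero.2 hαβ.symm
  have h7 := (mul_eq_zero.1 h4).resolve_right h6
  exact sub_eq_zero.1 h7

include hcb hne hG hW in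
/-- The odd part of a relation is constant on the blocks. -/
theorem tower_const (hT : Tower Γ cb bl y₀) (hP : TowerPair Γ cb bl y₀) {u : Y → ℤ} (huodd : ∀ y, u (cb y) = -u y)
    (husupp : ∀ y, ¬ Link Γ cb y₀ y → u y = 0) (hu : Rel Γ W u) {x : Y} (hx : Link Γ cb y₀ x)
    (hnd : ∀ z, bl x z → z ≠ x → ∃ g : Γ, W (g • z) ≠ W (g • x))
    (hcard : 3 ≤ Nat.card {z // bl x z}) {y : Y} (hy : bl x y) : u y = u x := by
  classical
  by_contra hcon
  have hyx : y ≠ x := fun h => hcon (by rw [h])
  -- a third element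
  obtain ⟨z, hz, hzx, hzy⟩ : ∃ z, bl x z ∧ z ≠ x ∧ z ≠ y := by
    by_contra hcon'
    push Not at hcon'
    have h1 : Nat.card {z // bl x z} ≤ 2 := by
      have h2 : Nat.card {z // bl x z} ≤ Nat.card ({x, y} : Set Y) :=
        Nat.card_le_card_of_injective (fun z : {z // bl x z} =>
          (⟨z.1, by
            by_cases h : z.1 = x
            · exact Or.inl h
            · exact Or.inr (hcon' z.1 z.2 h)⟩ : ({x, y} : Set Y)))
          fun a b h => Subtype.ext (congrArg (fun c : ({x, y} : Set Y) => c.1) h)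
      refine h2.trans ?_
      rw [Nat.card_coe_set_eq]
      exact (Set.ncard_insert_le x {y}).trans (by rw [Set.ncard_singleton])
    omega
  have key : ∀ a b, bl x a → bl x b → b ≠ a →
      (u a = u x ∧ u b = u y) ∨ (u b = u x ∧ u a = u y) := by
    intro a b ha hb hab
    obtain ⟨σ, hσ, h | h⟩ := hP x y a b hx hy ha hb hyx hab
    · have h1 := tower_move hcb hne hG hW hT hP huodd husupp hu hx hnd hy hyx hσ
        (by rw [h.1]; exact ha) (hT.eqv.refl x)
      have h2 := tower_move hcb hne hG hW hT hP huodd husupp hu hx hnd hy hyx hσ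
        (by rw [h.1]; exact ha) hy
      rw [h.1] at h1
      rw [h.2] at h2
      exact Or.inl ⟨h1, h2⟩
    · have h1 := tower_move hcb hne hG hW hT hP huodd husupp hu hx hnd hy hyx hσ
        (by rw [h.1]; exact hb) (hT.eqv.refl x)
      have h2 := tower_move hcb hne hG hW hT hP huodd husupp hu hx hnd hy hyx hσ
        (by rw [h.1]; exact hb) hy
      rw [h.1] at h1
      rw [h.2] at h2
      exact Or.inr ⟨h1, h2⟩
  have h1 := key x z (hT.eqv.refl x) hz hzx
  have h2 := key y z hy hz hzy
  rcases h1 with ⟨-, h1⟩ | ⟨-, h1⟩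
  · rcases h2 with ⟨h2, -⟩ | ⟨h2, -⟩
    · exact hcon h2
    · exact hcon (by rw [← h1, h2])
  · exact hcon h1.symm

include hcb hne hG hW in
/-- The odd part of a relation is constant on the blocks of prime size. -/
theorem tower_cyc (hT : Tower Γ cb bl y₀) {b : ℕ} (hP : TowerCyc Γ cb bl y₀ b) {u : Y → ℤ}
    (huodd : ∀ y, u (cb y) = -u y)
    (husupp : ∀ y, ¬ Link Γ cb y₀ y → u y = 0) (hu : Rel Γ W u) {x : Y} (hx : Link Γ cb y₀ x)
    (hnd : ∀ z, bl x z → z ≠ x → ∃ g : Γ, W (g • z) ≠ W (g • x))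
    {y : Y} (hy : bl x y) : u y = u x := by
  classical
  obtain ⟨hb, hP⟩ := hP
  have _ : Fact b.Prime := ⟨hb⟩
  obtain ⟨σ, hσ, hper, hmove, hall⟩ := hP x hx
  have hσx : bl x (σ • x) := (hall _).2 ⟨1, by rw [pow_one]⟩
  obtain ⟨hvsum, hv, hsum⟩ := tower_diff hcb hne hG hW hT huodd husupp hu hx hσ hσx
  have hinj := cycle_inj (G := Γ) (r := b) hmove hper
  -- sums over the block
  have hcyc : ∀ f : Y → ℤ, ∑ z, (if bl x z then f z else 0) =
      ∑ k ∈ Finset.range b, f (σ ^ k • x) := by
    intro f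
    rw [← Finset.sum_filter]
    have h1 : Finset.univ.filter (fun z => bl x z) =
        (Finset.range b).image (fun k => σ ^ k • x) := by
      ext z
      simp only [Finset.mem_filter, Finset.mem_univ, true_and, hall, Finset.mem_image,
        Finset.mem_range]
      constructor
      · rintro ⟨k, rfl⟩
        exact ⟨k % b, Nat.mod_lt _ hb.pos, (cycle_mod hper k).symm⟩
      · rintro ⟨k, -, rfl⟩
        exact ⟨k, rfl⟩
    rw [h1, Finset.sum_image]
    intro k hk l hl h'
    exact hinj k l (Finset.mem_range.1 hk) (Finset.mem_range.1 hl) h'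
  obtain ⟨g, hg⟩ := hnd _ hσx hmove
  let β : ℕ → ℤ := fun k => u (σ • σ ^ k • x) - u (σ ^ k • x)
  have h0 : ∑ k ∈ Finset.range b, β k = 0 := by
    rw [hcyc] at hvsum
    exact hvsum
  have h1 : ∀ j, ∑ k ∈ Finset.range b, β k * W (g • σ ^ (k + j) • x) = 0 := by
    intro j
    have h2 := hv (g * σ ^ j)
    rw [hsum (fun z => W ((g * σ ^ j) • z)) fun z => by rw [hG, hW], hcyc] at h2
    have h3 : ∑ k ∈ Finset.range b, (u (σ • σ ^ k • x) - u (σ ^ k • x)) *
        W ((g * σ ^ j) • σ ^ k • x) = 0 := by omega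
    rw [← h3]
    refine Finset.sum_congr rfl fun k _ => ?_
    rw [mul_smul, ← mul_smul (σ ^ j), ← pow_add, add_comm j k]
  rcases cyclic_relation (r := b) β (fun k => W (g • σ ^ k • x)) (fun k => by
      rw [pow_add, mul_smul, hper]) h0 h1 with h | h
  · have key : ∀ k, u (σ ^ k • x) = u x := by
      intro k
      induction k with
      | zero => rw [pow_zero, one_smul]
      | succ k ih =>
        have h2 := h (k % b) (Nat.mod_lt _ hb.pos)
        simp only [β] at h2
        rw [← cycle_mod hper k] at h2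
        rw [pow_succ', mul_smul, ← ih]
        omega
    obtain ⟨k, rfl⟩ := (hall y).1 hy
    exact key k
  · exfalso
    apply hg
    have h2 := h 1
    simp only [pow_one, pow_zero, one_smul] at h2
    exact h2

include hcb hne hG hW in
/-- **Short relations in towers.** -/
theorem short_tower (hT : Tower Γ cb bl y₀)
    (hP : TowerPair Γ cb bl y₀ ∨ ∃ b, TowerCyc Γ cb bl y₀ b) {r : ℕ}
    (hnd : ∀ x z, Link Γ cb y₀ x → bl x z → z ≠ x → ∃ g : Γ, W (g • z) ≠ W (g • x))
    (hcard : ∀ x, Link Γ cb y₀ x → 2 * r < Nat.card {z // bl x z}) {d : Y → ℕ}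
    (hd : Rel Γ W (fun y => (d y : ℤ))) (hr : ∑ y, d y ≤ 2 * r) :
    restrC Γ cb y₀ (fun y => (d y : ℤ)) ∈ AddSubgroup.closure (Elm Γ W) := by
  classical
  set D := restrC Γ cb y₀ (fun y => (d y : ℤ)) with hD
  have hDrel : Rel Γ W D := rel_restrC hG hW hd y₀
  have hlc : ∀ y, Link Γ cb y₀ (cb y) ↔ Link Γ cb y₀ y := fun y =>
    ⟨fun h => link_trans h (link_symm (link_cb hcb hne hG y)),
      fun h => link_trans h (link_cb hcb hne hG y)⟩
  let u : Y → ℤ := fun y => D y - D (cb y)
  have huodd : ∀ y, u (cb y) = -u y := by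
    intro y
    simp only [u, hcb]
    ring
  have husupp : ∀ y, ¬ Link Γ cb y₀ y → u y = 0 := by
    intro y hy
    have h1 : D y = 0 := if_neg hy
    have h2 : D (cb y) = 0 := if_neg fun h => hy ((hlc y).1 h)
    simp only [u, h1, h2, sub_self]
  have hurel : Rel Γ W u := by
    intro σ
    have h1 : ∑ y, D (cb y) * W (σ • y) = -∑ y, D y * W (σ • y) := by
      rw [← Finset.sum_neg_distrib]
      refine Fintype.sum_equiv (Function.Involutive.toPerm cb hcb) _ _ fun y => ?_
      change _ = -(D (cb y) * W (σ • cb y))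
      rw [hG, hW]
      ring
    simp only [u, sub_mul, Finset.sum_sub_distrib, h1, hDrel σ, neg_zero, sub_zero]
  refine symC_mem hcb hne hG hW fun x hx => ?_
  suffices h : u x = 0 by
    have h1 : D x = d x := if_pos hx
    have h2 : D (cb x) = d (cb x) := if_pos ((hlc x).2 hx)
    have h3 : D x - D (cb x) = 0 := h
    rw [h1, h2] at h3
    omega
  by_contra hcon
  -- the case `r = 0`
  rcases Nat.eq_zero_or_pos r with hr0 | hr0
  · subst hr0
    have h1 : ∀ y, d y = 0 := by
      intro y
      have h2 := Finset.single_le_sum (fun i _ => Nat.zero_le (d i)) (Finset.mem_univ y)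
      omega
    apply hcon
    have h1' : ∀ y, D y = 0 := by
      intro y
      simp only [hD, restrC, h1]
      split_ifs <;> simp
    simp only [u, h1', sub_self]
  have hc3 : 3 ≤ Nat.card {z // bl x z} := by
    have := hcard x hx
    omega
  have hconst : ∀ y, bl x y → u y = u x := by
    intro y hy
    rcases hP with hP | ⟨b, hP⟩
    · exact tower_const hcb hne hG hW hT hP huodd husupp hurel hx (fun z => hnd x z hx) hc3 hy
    · exact tower_cyc hcb hne hG hW hT hP huodd husupp hurel hx (fun z => hnd x z hx) hy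
  -- on the block all values `d y`, or all values `d (cb y)`, are positive
  have hDd : ∀ y, bl x y → D y = d y := fun y hy => if_pos (hT.sub x y hx hy)
  have hDd' : ∀ y, bl x y → D (cb y) = d (cb y) := fun y hy => if_pos ((hlc y).2 (hT.sub x y hx hy))
  have hle : ∀ (f : Y → Y), Function.Injective f → (∀ y, bl x y → 1 ≤ d (f y)) →
      Nat.card {z // bl x z} ≤ 2 * r := by
    intro f hf h
    refine le_trans ?_ hr
    have h1 : Nat.card {z // bl x z} = (Finset.univ.filter fun z => bl x z).card := by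
      rw [Nat.card_eq_fintype_card, Fintype.card_subtype]
    rw [h1]
    calc (Finset.univ.filter fun z => bl x z).card
        = ∑ z ∈ Finset.univ.filter (fun z => bl x z), 1 := by rw [Finset.sum_const, smul_eq_mul, mul_one]
      _ ≤ ∑ z ∈ Finset.univ.filter (fun z => bl x z), d (f z) :=
          Finset.sum_le_sum fun z hz => h z (Finset.mem_filter.1 hz).2
      _ = ∑ z ∈ (Finset.univ.filter (fun z => bl x z)).image f, d z := by
          rw [Finset.sum_image fun a _ b _ hab => hf hab]
      _ ≤ ∑ z, d z := Finset.sum_le_sum_of_subset (Finset.subset_univ _)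
  have h4 := hcard x hx
  rcases lt_or_gt_of_ne hcon with h | h
  · have h5 := hle cb (fun a b hab => by rw [← hcb a, hab, hcb]) fun y hy => by
      have h6 := hconst y hy
      have h7 : D y - D (cb y) < 0 := by
        change u y < 0
        rw [h6]
        exact h
      rw [hDd y hy, hDd' y hy] at h7
      omega
    omega
  · have h5 := hle id Function.injective_id fun y hy => by
      have h6 := hconst y hy
      have h7 : 0 < D y - D (cb y) := by
        change 0 < u y
        rw [h6]
        exact h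
      rw [hDd y hy, hDd' y hy] at h7
      change 1 ≤ d y
      omega
    omega

end Pool.Agent.V7H82.LR
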