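import Pool.Agent.V7H82.LR.Fin
import Pool.Agent.V7H82.LR.Tower
import Pool.Agent.V7H82.LR.StmT

/-!
# Short relations are elementary for good classes and towers
-/

set_option autoImplicit false
set_option linter.unusedSectionVars false
set_option linter.unusedVariables false

namespace Pool.Agent.V7H82.LR

open NumberField Module MulAction
open Pool.Agent.W495.TA Pool.Agent.TH117.BL Pool.Agent.TH117.PO Pool.Agent.N202.QR
  Pool.Agent.TH127.SC Pool.Agent.V7H82.HT

variable {p : ℕ} [Fact p.Prime] {ν : PadicAlgCl p ≃+* ℂ} {Z : RedAV p ν}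

attribute [local instance] Pool.Agent.V7H82.HT.embAct

theorem agreeOn_self {i : Z.X.I} (F : IntermediateField ℚ (Z.X.factor i).E) {x : Emb Z}
    (hx : x.1 = i) : AgreeOn F x x := by
  subst hx
  exact ⟨x.2, x.2, rfl, rfl, fun _ _ => rfl⟩

theorem agreeOn_symm {i : Z.X.I} {F : IntermediateField ℚ (Z.X.factor i).E} {x y : Emb Z}
    (h : AgreeOn F x y) : AgreeOn F y x := by
  obtain ⟨φ, ψ, rfl, rfl, h⟩ := h
  exact ⟨ψ, φ, rfl, rfl, fun t ht => (h t ht).symm⟩

theorem agreeOn_trans {i : Z.X.I} {F : IntermediateField ℚ (Z.X.factor i).E} {x y z : Emb Z}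
    (h : AgreeOn F x y) (h' : AgreeOn F y z) : AgreeOn F x z := by
  obtain ⟨φ, ψ, rfl, rfl, h⟩ := h
  obtain ⟨φ', ψ', h1, rfl, h'⟩ := h'
  have h2 : ψ = φ' := eq_of_heq (Sigma.mk.inj h1).2
  subst h2
  exact ⟨φ, ψ', rfl, rfl, fun t ht => (h t ht).trans (h' t ht)⟩

theorem agreeOn_smul {i : Z.X.I} {F : IntermediateField ℚ (Z.X.factor i).E} {x y : Emb Z}
    (σ : ℂ ≃+* ℂ) (h : AgreeOn F x y) : AgreeOn F (σ • x) (σ • y) := by
  obtain ⟨φ, ψ, rfl, rfl, h⟩ := h
  exact ⟨(σ : ℂ →+* ℂ).comp φ, (σ : ℂ →+* ℂ).comp ψ, rfl, rfl, fun t ht => congrArg σ (h t ht)⟩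

theorem agreeOn_conj {i : Z.X.I} {F : IntermediateField ℚ (Z.X.factor i).E} {x y : Emb Z}
    (h : AgreeOn F x y) : AgreeOn F (conjE x) (conjE y) := by
  obtain ⟨φ, ψ, rfl, rfl, h⟩ := h
  refine ⟨ComplexEmbedding.conjugate φ, ComplexEmbedding.conjugate ψ, rfl, rfl, fun t ht => ?_⟩
  rw [ComplexEmbedding.conjugate_coe_eq, ComplexEmbedding.conjugate_coe_eq, h t ht]

theorem not_agreeOn_conj {i : Z.X.I} {F : IntermediateField ℚ (Z.X.factor i).E}
    (hF : ∃ t ∈ F, IsCMField.complexConj _ t ≠ t) (x : Emb Z) : ¬ AgreeOn F x (conjE x) := by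
  rintro ⟨φ, ψ, rfl, h1, h⟩
  have h2 : ComplexEmbedding.conjugate φ = ψ := eq_of_heq (Sigma.mk.inj h1).2
  subst h2
  obtain ⟨t, ht, ht'⟩ := hF
  apply ht'
  apply φ.injective
  rw [IsCMField.complexEmbedding_complexConj, ← ComplexEmbedding.conjugate_coe_eq, ← h t ht]

/-- Embeddings which agree on a CM subfield are linked. -/
theorem linked_of_agree {i : Z.X.I} {F : IntermediateField ℚ (Z.X.factor i).E}
    (hF : ∃ t ∈ F, IsCMField.complexConj _ t ≠ t) {x y : Emb Z} (h : AgreeOn F x y) :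
    IsLinked x y := by
  refine Relation.EqvGen.rel _ _ ?_
  rintro ⟨σ, ⟨h1, h2⟩ | ⟨h1, h2⟩ | ⟨h1, h2⟩⟩
  · have h3 : AgreeOn F (moveE σ x) (moveE σ y) := agreeOn_smul σ h
    rw [h1, h2] at h3
    exact not_agreeOn_conj hF y (agreeOn_trans (agreeOn_symm h) h3)
  · have h3 : AgreeOn F (moveE σ x) (moveE σ y) := agreeOn_smul σ h
    rw [h1, h2] at h3
    exact not_agreeOn_conj hF x (agreeOn_trans h (agreeOn_symm h3))
  · have h3 : AgreeOn F (moveE σ x) (moveE σ y) := agreeOn_smul σ h
    rw [h1, h2] at h3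
    exact not_agreeOn_conj hF x (agreeOn_trans h h3)

/-- Eigenvalues which are equal up to roots of unity. -/
theorem eig_of_W {W : Emb Z → ℤ} (hW : ∀ w, W (conjE w) = -W w)
    (hWrel : ∀ e : Emb Z → ℕ, IsRel Z e ↔ Rel (ℂ ≃+* ℂ) W (fun w => (e w : ℤ))) {x z : Emb Z}
    (h : ∀ g : ℂ ≃+* ℂ, W (g • z) = W (g • x)) : ∃ n : ℕ, 0 < n ∧ eig Z z ^ n = eig Z x ^ n := by
  classical
  let e : Emb Z → ℕ := fun y => (if y = z then 1 else 0) + if y = conjE x then 1 else 0
  have h1 : IsRel Z e := by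
    rw [hWrel]
    intro σ
    have h2 : ∀ y, ((e y : ℕ) : ℤ) * W (σ • y) =
        (if y = z then W (σ • y) else 0) + if y = conjE x then W (σ • y) else 0 := by
      intro y
      simp only [e]
      split_ifs <;> push_cast <;> ring
    rw [Finset.sum_congr rfl fun y _ => h2 y, Finset.sum_add_distrib,
      Finset.sum_ite_eq' Finset.univ, Finset.sum_ite_eq' Finset.univ, if_pos (Finset.mem_univ _),
      if_pos (Finset.mem_univ _), act_conj, hW, h σ]
    ring
  obtain ⟨s, hs, h2⟩ := h1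
  have h3 : ∏ y, eig Z y ^ e y = eig Z z * eig Z (conjE x) := by
    simp only [e, pow_add, Finset.prod_mul_distrib]
    congr 1
    · rw [Finset.prod_eq_single z (fun y _ hy => by rw [if_neg hy, pow_zero])
        (fun h => absurd (Finset.mem_univ _) h), if_pos rfl, pow_one]
    · rw [Finset.prod_eq_single (conjE x) (fun y _ hy => by rw [if_neg hy, pow_zero])
        (fun h => absurd (Finset.mem_univ _) h), if_pos rfl, pow_one]
  have h4 : ∑ y, e y = 2 := by
    simp only [e, Finset.sum_add_distrib, Finset.sum_ite_eq', Finset.mem_univ, if_true]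
  rw [h3, h4] at h2
  refine ⟨2 * s, by omega, ?_⟩
  have h5 := eig_conj (Z := Z) x
  have h6 : eig Z (conjE x) ≠ 0 := by
    intro h0
    rw [h0, mul_zero] at h5
    have hp : (p : ℂ) ≠ 0 := by exact_mod_cast (Fact.out : p.Prime).ne_zero
    exact (pow_ne_zero _ hp) h5.symm
  have h7 : (eig Z z * eig Z (conjE x)) ^ (2 * s) = (eig Z x * eig Z (conjE x)) ^ (2 * s) := by
    rw [h2, h5, mul_comm s 2]
  rw [mul_pow, mul_pow] at h7
  exact mul_right_cancel₀ (pow_ne_zero _ h6) h7

/-- The relation of agreeing on `F`, completed by the equality. -/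
def blE {i : Z.X.I} (F : IntermediateField ℚ (Z.X.factor i).E) (x y : Emb Z) : Prop :=
  x = y ∨ AgreeOn F x y

theorem blE_iff {i : Z.X.I} {F : IntermediateField ℚ (Z.X.factor i).E} {x y : Emb Z}
    (hx : x.1 = i) : blE F x y ↔ AgreeOn F x y := by
  constructor
  · rintro (rfl | h)
    · exact agreeOn_self F hx
    · exact h
  · exact Or.inr

theorem tower_of {r : ℕ} {w : Emb Z} {F : IntermediateField ℚ (Z.X.factor w.1).E}
    (h1 : ∀ x : Emb Z, IsLinked w x → x.1 = w.1)
    (hF : ∃ t ∈ F, IsCMField.complexConj _ t ≠ t) : Tower (ℂ ≃+* ℂ) conjE (blE F) w where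
  eqv :=
    { refl := fun x => Or.inl rfl
      symm := by
        rintro x y (rfl | h)
        · exact Or.inl rfl
        · exact Or.inr (agreeOn_symm h)
      trans := by
        rintro x y z (rfl | h) (rfl | h')
        · exact Or.inl rfl
        · exact Or.inr h'
        · exact Or.inr h
        · exact Or.inr (agreeOn_trans h h') }
  smul := by
    rintro σ x y (rfl | h)
    · exact Or.inl rfl
    · exact Or.inr (agreeOn_smul σ h)
  cbb := by
    rintro x y (rfl | h)
    · exact Or.inl rfl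
    · exact Or.inr (agreeOn_conj h)
  mv := by
    rintro x hx (h | h)
    · exact conjE_ne x h.symm
    · exact not_agreeOn_conj hF x h
  sub := by
    rintro x y hx (rfl | h)
    · exact hx
    · exact link_trans hx (linked_of_agree hF h)
  trans := fun z hz => mem_orbit_emb.2 (h1 z hz)

/-- The number of elements of an orbit of a cyclic group. -/
theorem period_of_card {Γ Y : Type*} [Group Γ] [MulAction Γ Y] [Finite Y] (σ : Γ) (x : Y)
    {S : Y → Prop} (hS : ∀ z, S z ↔ ∃ k : ℕ, σ ^ k • x = z) :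
    Function.minimalPeriod (fun y => σ • y) x = Nat.card {z // S z} := by
  set n := Function.minimalPeriod (fun y : Y => σ • y) x with hn
  have hpos : 0 < n := by
    apply Function.minimalPeriod_pos_of_mem_periodicPts
    have h1 := Function.Injective.mem_periodicPts (f := fun y : Y => σ • y)
      (MulAction.injective (β := Y) σ) x
    exact h1
  have hit : ∀ k : ℕ, (fun y : Y => σ • y)^[k] x = σ ^ k • x := fun k => smul_iterate_apply σ k x
  have hmod : ∀ k : ℕ, σ ^ k • x = σ ^ (k % n) • x := by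
    intro k
    rw [← hit, ← hit, Function.iterate_mod_minimalPeriod_eq]
  let f : Fin n → {z // S z} := fun k => ⟨σ ^ (k : ℕ) • x, (hS _).2 ⟨k, rfl⟩⟩
  have hf : Function.Bijective f := by
    constructor
    · intro k l hkl
      have h1 : σ ^ (k : ℕ) • x = σ ^ (l : ℕ) • x := congrArg Subtype.val hkl
      rw [← hit, ← hit] at h1
      exact Fin.ext ((Function.iterate_eq_iterate_iff_of_lt_minimalPeriod k.2 l.2).1 h1)
    · rintro ⟨z, hz⟩
      obtain ⟨k, rfl⟩ := (hS _).1 hz
      exact ⟨⟨k % n, Nat.mod_lt _ hpos⟩, Subtype.ext (hmod k).symm⟩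
  have h2 := Nat.card_congr (Equiv.ofBijective f hf)
  rw [Nat.card_eq_fintype_card, Fintype.card_fin] at h2
  exact h2

/-- **Short relations are elementary.** -/
theorem elementary_of_goodT {r : ℕ} (h : HasGoodClassesT r Z) : HasElementaryUpTo r Z := by
  classical
  intro e he hr
  obtain ⟨W, hW, hWrel⟩ := exists_W Z
  have hd : Rel (ℂ ≃+* ℂ) W (fun w => (e w : ℤ)) := (hWrel e).1 he
  have hG : ∀ (g : ℂ ≃+* ℂ) (y : Emb Z), g • conjE y = conjE (g • y) := act_conj
  have hcl : AddSubgroup.closure (Elm (ℂ ≃+* ℂ) W) ≤ AddSubgroup.closure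
      {d : Emb Z → ℤ | ∃ n : Emb Z → ℕ, IsRel Z n ∧ IsElementary Z n ∧ ∀ w, d w = n w} := by
    refine AddSubgroup.closure_mono ?_
    rintro d ⟨h1, m, h2, h3⟩
    refine ⟨m, (hWrel m).2 ?_, Or.inl h3, h2⟩
    have h4 : (fun w => (m w : ℤ)) = d := funext fun w => (h2 w).symm
    rw [h4]
    exact h1
  refine mem_of_restrC (Γ := ℂ ≃+* ℂ) (cb := conjE) fun w => ?_
  rcases h w with ⟨h1, b, hb, h2⟩ | ⟨h1, F, hF, hcard, hnd, hP⟩ | ⟨S, hS, h1⟩
  · apply hcl
    have htr : ∀ z, Link (ℂ ≃+* ℂ) conjE w z → ∃ g : ℂ ≃+* ℂ, g • w = z := fun z hz =>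
      mem_orbit_emb.2 (h1 z hz)
    rcases h2 with ⟨h2, h3⟩ | ⟨h2, h3⟩
    · exact short_hom conjE_conjE conjE_ne hG hW htr (classPair_of h2) hb h3 hd hr
    · refine short_good conjE_conjE conjE_ne hG hW (r := r) ⟨fun z hz => ?_, b, ?_, ?_⟩ ?_ hd hr
      · obtain ⟨σ, hσ⟩ := htr z (link_pm.1 hz)
        obtain ⟨g, hg⟩ := pm_of (Y := Emb Z) σ
        exact ⟨g, by rw [hg, hσ]⟩
      · simp only [link_pm]
        exact hb
      · rcases h3 with h3 | ⟨h3, h4⟩
        · exact Or.inr (Or.inl h3)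
        · exact Or.inr (Or.inr ⟨classPair_pm h3, Or.inl h4⟩)
      · have h5 : Nat.card (Cl (ℂ ≃+* ℂ) conjE w) = 2 * b := hb
        rw [h5]
        omega
  · -- towers
    apply hcl
    have hT : Tower (ℂ ≃+* ℂ) conjE (blE F) w := tower_of (r := r) h1 hF
    have hbl : ∀ x y : Emb Z, IsLinked w x → (blE F x y ↔ AgreeOn F x y) := fun x y hx =>
      blE_iff (h1 x hx)
    have hblc : ∀ x y : Emb Z, IsLinked w x → (blE F (conjE x) y ↔ AgreeOn F (conjE x) y) :=
      fun x y hx => blE_iff (h1 x hx)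
    refine short_tower conjE_conjE conjE_ne hG hW hT ?_ (r := r) ?_ ?_ hd hr
    · rcases hP with hP | ⟨hprime, hP⟩
      · left
        intro x y x' y' hx hy hx' hy' hyx hyx'
        obtain ⟨σ, h3, h4⟩ := hP x y x' y' hx ((hbl x y hx).1 hy) ((hbl x x' hx).1 hx')
          ((hbl x y' hx).1 hy') hyx hyx'
        exact ⟨σ, fun z hz h5 h6 => h3 z hz (fun h => h5 ((hbl x z hx).2 h))
          (fun h => h6 ((hblc x z hx).2 h)), h4⟩
      · right
        refine ⟨_, hprime, fun x hx => ?_⟩
        obtain ⟨σ, h3, h4⟩ := hP x hx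
        -- the number of elements in the block of `x`
        have h5 : Nat.card {z // blE F x z} = Nat.card {y : Emb Z // AgreeOn F w y} := by
          obtain ⟨g, hg⟩ := hT.trans x hx
          refine Nat.card_congr
            { toFun := fun z => ⟨g⁻¹ • z.1, ?_⟩
              invFun := fun z => ⟨g • z.1, ?_⟩
              left_inv := fun z => Subtype.ext (smul_inv_smul g z.1)
              right_inv := fun z => Subtype.ext (inv_smul_smul g z.1) }
          · have h6 := agreeOn_smul g⁻¹ ((hbl x z.1 hx).1 z.2)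
            have h7 : g⁻¹ • x = w := by rw [← hg, inv_smul_smul]
            rwa [h7] at h6
          · have h6 := agreeOn_smul g z.2
            rw [hg] at h6
            exact (hbl x _ hx).2 h6
        have h6 : ∀ z, blE F x z ↔ ∃ k : ℕ, σ ^ k • x = z := fun z => (hbl x z hx).trans (h4 z)
        have h7 := period_of_card σ x h6
        rw [h5] at h7
        refine ⟨σ, fun z hz h8 h9 => h3 z hz (fun h => h8 ((hbl x z hx).2 h))
          (fun h => h9 ((hblc x z hx).2 h)), ?_, ?_, h6⟩
        · rw [← h7, ← smul_iterate_apply]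
          exact Function.isPeriodicPt_minimalPeriod _ _
        · intro h8
          have h9 : Function.minimalPeriod (fun y : Emb Z => σ • y) x = 1 := by
            rw [Function.minimalPeriod_eq_one_iff_isFixedPt]
            exact h8
          rw [h7] at h9
          exact hprime.one_lt.ne' h9
    · intro x z hx hz hzx
      obtain ⟨g, hg⟩ := hT.trans x hx
      by_contra hcon
      push Not at hcon
      have h5 : AgreeOn F w (g⁻¹ • z) := by
        have h6 := agreeOn_smul g⁻¹ ((hbl x z hx).1 hz)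
        rwa [← hg, inv_smul_smul] at h6
      obtain ⟨n, hn, h6⟩ := eig_of_W hW hWrel (x := w) (z := g⁻¹ • z) fun g' => by
        have h7 := hcon (g' * g⁻¹)
        rw [mul_smul, mul_smul, ← hg, inv_smul_smul] at h7
        exact h7
      refine hnd _ h5 (fun h8 => hzx ?_) n hn h6
      rw [← hg, ← h8, smul_inv_smul]
    · intro x hx
      obtain ⟨g, hg⟩ := hT.trans x hx
      have h5 : Nat.card {z // blE F x z} = Nat.card {y : Emb Z // AgreeOn F w y} := by
        refine Nat.card_congr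
          { toFun := fun z => ⟨g⁻¹ • z.1, ?_⟩
            invFun := fun z => ⟨g • z.1, ?_⟩
            left_inv := fun z => Subtype.ext (smul_inv_smul g z.1)
            right_inv := fun z => Subtype.ext (inv_smul_smul g z.1) }
        · have h6 := agreeOn_smul g⁻¹ ((hbl x z.1 hx).1 z.2)
          have h7 : g⁻¹ • x = w := by rw [← hg, inv_smul_smul]
          rwa [h7] at h6
        · have h6 := agreeOn_smul g z.2
          rw [hg] at h6
          exact (hbl x _ hx).2 h6
      rw [h5]
      exact hcard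
  · -- a small class
    let n : Emb Z → ℕ := fun x => if Link (ℂ ≃+* ℂ) conjE w x then e x else 0
    have hn : (fun x => (n x : ℤ)) = restrC (ℂ ≃+* ℂ) conjE w (fun x => (e x : ℤ)) := by
      funext x
      change ((if Link (ℂ ≃+* ℂ) conjE w x then e x else 0 : ℕ) : ℤ) =
        if Link (ℂ ≃+* ℂ) conjE w x then (e x : ℤ) else 0
      split_ifs <;> rfl
    refine AddSubgroup.subset_closure ⟨n, (hWrel n).2 ?_, Or.inr (Or.inl ⟨S, hS, fun x hx => ?_⟩),
      fun x => (congrFun hn x).symm⟩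
    · rw [hn]
      exact rel_restrC hG hW hd w
    · refine h1 x ?_
      by_contra hcon
      exact hx (if_neg hcon)

end Pool.Agent.V7H82.LR
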