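import Pool.Agent.W495.TA.Defs

/-!
# Cohomology classes of abelian varieties over finite fields: definitions
-/

set_option autoImplicit false

namespace Pool.Agent.V7H82.LR

open Module Pool.Agent.W495.TA
open scoped TensorProduct

noncomputable section

section

variable {p : ℕ} [Fact p.Prime] {ν : PadicAlgCl p ≃+* ℂ} (Ω : Type) [Field Ω] [CharZero Ω]
  (Y : RedAV p ν) (m : ℕ)

/-- The classes of degree `2 m` on `Y`: the alternating forms in `2 m` variables on the Tate
module. -/
def Cls : Type := (TM Ω Y) [⋀^Fin (2 * m)]→ₗ[Ω] Ω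

variable {Ω Y m}

/-- The value of the form `f`. -/
def val (f : Cls Ω Y m) (v : Fin (2 * m) → TM Ω Y) : Ω :=
  (show (TM Ω Y) [⋀^Fin (2 * m)]→ₗ[Ω] Ω from f) v

/-- `h = c f + g`. -/
def IsComb (c : Ω) (f g h : Cls Ω Y m) : Prop := ∀ v, val h v = c * val f v + val g v

/-- `g` is the pull-back of `f` along the Frobenius endomorphism of `Y`. -/
def IsPullF (f g : Cls Ω Y m) : Prop := ∀ v, val g v = val f fun k => F Ω Y (v k)

end

end

end Pool.Agent.V7H82.LR
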