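import Pool.Agent.V7H82.LR.Alg
import Pool.Agent.V7H82.LR.Cls
import Pool.Agent.N202.QR.RankOne
import Pool.Agent.V7H82.LR.Fin

/-!
# Tate classes of small codimension or small dimension
-/

set_option autoImplicit false
set_option linter.unusedSectionVars false
set_option linter.unusedVariables false

namespace Pool.Agent.V7H82.LR

open NumberField Pool.Agent.H204R3.CM Pool.Agent.W547.KB Pool.Agent.W547.LD Module
  Pool.Agent.W495.TA Pool.Agent.W495.TB Pool.Agent.W495.TC Pool.Agent.TH117.F5
  Pool.Agent.TH117.BL Pool.Agent.N202.QR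
open scoped TensorProduct

noncomputable section

variable {p : ℕ} [Fact p.Prime] {ν : PadicAlgCl p ≃+* ℂ}

/-- The group generated by the elementary relations. -/
def elmGroup (Z : RedAV p ν) : AddSubgroup (Emb Z → ℤ) := AddSubgroup.closure
  {d : Emb Z → ℤ | ∃ n : Emb Z → ℕ, IsRel Z n ∧ IsElementary Z n ∧ ∀ w, d w = n w}

section

variable {Ω : Type} [Field Ω] [CharZero Ω]
  {L : Type} [Field L] [NumberField L] [IsCMField L] [IsGalois ℚ L] {j : L →+* ℂ} (jO : L →+* Ω)
  {Z : RedAV p ν}

open Classical in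
/-- The exponents belonging to a weight, or to the weight zero. -/
def dlt (j : L →+* ℂ) (Z : RedAV p ν) (o : Option (Wt Z.X L)) (u : Emb Z) : ℤ :=
  if ∃ v, o = some v ∧ toEmb j Z v = u then 1 else 0

/-- The exponents belonging to a family of weights. -/
def nE (j : L →+* ℂ) {Z : RedAV p ν} {κ : Type} (w : κ → Option (Wt Z.X L)) (u : Emb Z) : ℕ :=
  Nat.card {k // ∃ v, w k = some v ∧ toEmb j Z v = u}

theorem nE_eq {κ : Type} [Fintype κ] (w : κ → Option (Wt Z.X L)) (u : Emb Z) :
    (nE j w u : ℤ) = ∑ k, dlt j Z (w k) u := by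
  classical
  unfold nE dlt
  rw [Finset.sum_boole, Nat.card_eq_fintype_card, Fintype.card_subtype]

theorem nE_wt (hZ : Big Z.X j) {κ : Type} (w : κ → Option (Wt Z.X L)) (v : Wt Z.X L) :
    (nE j w (toEmb j Z v) : ℤ) = Pool.Agent.TH117.BL.cnt w v := by
  unfold nE Pool.Agent.TH117.BL.cnt
  congr 1
  refine Nat.card_congr (Equiv.subtypeEquivRight fun k => ?_)
  constructor
  · rintro ⟨v', h1, h2⟩
    rw [h1, (toEmb_bijective (j := j) hZ).1 h2]
  · intro h
    exact ⟨v, h, rfl⟩

theorem nE_le {κ : Type} [Fintype κ] (w : κ → Option (Wt Z.X L)) :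
    ∑ u, nE j w u ≤ Fintype.card κ := by
  classical
  have h2 : ∀ u, nE j w u =
      (Finset.univ.filter fun k => ∃ v, w k = some v ∧ toEmb j Z v = u).card := by
    intro u
    unfold nE
    rw [Nat.card_eq_fintype_card, Fintype.card_subtype]
  rw [Finset.sum_congr rfl fun u _ => h2 u, ← Finset.card_biUnion]
  · exact Finset.card_le_univ _
  · intro u _ u' _ huu
    rw [Function.onFun, Finset.disjoint_left]
    intro k hk hk'
    obtain ⟨v, h3, h4⟩ := (Finset.mem_filter.1 hk).2
    obtain ⟨v', h3', h4'⟩ := (Finset.mem_filter.1 hk').2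
    apply huu
    rw [← h4, ← h4', Option.some.inj (h3.symm.trans h3')]

theorem isRel_nE (hZ : Big Z.X j) {κ : Type} [Fintype κ] (w : κ → Option (Wt Z.X L))
    (hsum : ∀ g, ∑ k, ext0 (tw p ν j Z.X) (w k) g = 0) : IsRel Z (nE j w) := by
  classical
  have hfin := finite_wt j hZ
  let _ : Fintype (Wt Z.X L) := Fintype.ofFinite _
  rw [isRel_iff hZ]
  intro σ
  rw [← hsum σ, sum_eq_cnt]
  exact Finset.sum_congr rfl fun v _ => by rw [nE_wt hZ]

/-- Short families. -/
theorem mem_short (hZ : Big Z.X j) {r : ℕ} (hrel : HasElementaryUpTo r Z) {κ : Type} [Fintype κ]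
    (w : κ → Option (Wt Z.X L)) (hsum : ∀ g, ∑ k, ext0 (tw p ν j Z.X) (w k) g = 0)
    (hle : Fintype.card κ ≤ 2 * r) : (fun u => (nE j w u : ℤ)) ∈ elmGroup Z :=
  hrel _ (isRel_nE hZ w hsum) ((nE_le w).trans hle)

/-- Pairs. -/
theorem mem_pair (hZ : Big Z.X j) (a b : Option (Wt Z.X L))
    (h : ∀ g, ext0 (tw p ν j Z.X) a g + ext0 (tw p ν j Z.X) b g = 0) :
    (fun u => dlt j Z a u + dlt j Z b u) ∈ elmGroup Z := by
  classical
  let w : Bool → Option (Wt Z.X L) := fun t => if t then a else b
  have h1 : (fun u => dlt j Z a u + dlt j Z b u) = fun u => (nE j w u : ℤ) := by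
    funext u
    rw [nE_eq, Fintype.sum_bool]
    rfl
  refine AddSubgroup.subset_closure ⟨nE j w, isRel_nE hZ w (fun g => ?_), Or.inl ?_, fun u => ?_⟩
  · rw [Fintype.sum_bool]
    exact h g
  · exact (nE_le w).trans (by simp)
  · exact congrFun h1 u

/-- Families whose relation is generated by elementary relations. -/
theorem fam_mem (hZ : Big Z.X j) (hkp : BigA (kp p) j)
    (κ : Type) [Fintype κ] (w : κ → Option (Wt Z.X L)) (heven : Even (Fintype.card κ))
    (hmem : (fun u => (nE j w u : ℤ)) ∈ elmGroup Z) :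
    AlgM p ν j jO κ fun k => ext0 (tw p ν j Z.X) (w k) := by
  classical
  have hfin := finite_wt j hZ
  let _ : Fintype (Wt Z.X L) := Fintype.ofFinite _
  have hclosed := closedM (p := p) (ν := ν) j jO
  have hc0 := cancel_zero (p := p) (ν := ν) j jO hkp
  have hbij := toEmb_bijective (j := j) hZ
  let E : Wt Z.X L ≃ Emb Z := Equiv.ofBijective _ hbij
  -- elementary relations
  have key : ∀ d : Emb Z → ℤ, d ∈ elmGroup Z →
      GenD (AlgM p ν j jO) (Set.range (ext0 (tw p ν j Z.X)))
        (DD (tw p ν j Z.X) fun l => d (toEmb j Z l)) := by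
    intro d hd
    unfold elmGroup at hd
    induction hd using AddSubgroup.closure_induction with
    | mem d hd =>
      obtain ⟨n, h0, h2, h3⟩ := hd
      have h1 := (isRel_iff hZ n).1 h0
      have h4 : (fun l => d (toEmb j Z l)) = fun l : Wt Z.X L => (n (toEmb j Z l) : ℤ) :=
        funext fun l => h3 _
      rw [h4]
      rcases h2 with h2 | ⟨S, hS, h2⟩ | h2
      · rw [DD_small (tw p ν j Z.X) (fun l => n (toEmb j Z l)) (by
          rw [← Equiv.sum_comp E] at h2
          exact h2) h1]
        exact GenD.zero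
      · exact genD_of_good (cw Z) (tw p ν j Z.X) tw_cw (fam_set jO hZ hkp S hS)
          (fun l => n (toEmb j Z l)) (fun l hl => h2 _ hl) h1
      · exact genD_weil jO hZ hkp n h0 h2
    | zero =>
      have h4 : (fun l : Wt Z.X L => (0 : Emb Z → ℤ) (toEmb j Z l)) = 0 := rfl
      rw [h4, DD_zero]
      exact GenD.zero
    | add d d' _ _ h h' =>
      have h4 : (fun l : Wt Z.X L => (d + d') (toEmb j Z l)) =
        (fun l => d (toEmb j Z l)) + fun l => d' (toEmb j Z l) := rfl
      rw [h4, DD_add]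
      exact h.add h'
    | neg d _ h =>
      have h4 : (fun l : Wt Z.X L => (-d) (toEmb j Z l)) = -fun l => d (toEmb j Z l) := rfl
      rw [h4, DD_neg]
      exact h.neg
  have h2 := key _ hmem
  have h3 : (fun l : Wt Z.X L => ((nE j w (toEmb j Z l) : ℕ) : ℤ)) = Pool.Agent.TH117.BL.cnt w :=
    funext fun v => nE_wt hZ w v
  have h4 : GenD (AlgM p ν j jO) (Set.range (ext0 (tw p ν j Z.X)))
      (dcnt fun k => ext0 (tw p ν j Z.X) (w k)) := by
    rw [dcnt_eq_DD, ← h3]
    exact h2
  refine @of_genD _ _ (Set.range (ext0 (tw p ν j Z.X))) hclosed ?_ κ _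
    (fun k => ext0 (tw p ν j Z.X) (w k)) (fun k => ⟨w k, rfl⟩)
    (by rw [Nat.card_eq_fintype_card]; exact heven) h4
  rintro f ⟨o, rfl⟩
  rcases o with _ | l
  · exact hc0
  · exact cancel_nn j jO (Z.X.factor l.1) l.2

end

/-- **Tate classes of small codimension or small dimension.** -/
theorem tate_dim {r : ℕ} (Z : RedAV p ν) (hrel : HasElementaryUpTo r Z)
    (Ω : Type) [Field Ω] [IsAlgClosed Ω] [CharZero Ω]
    (Y : RedAV p ν) (hY : IsPowersTimesSupersingular Z Y) (s m : ℕ) (hs0 : 0 < s)
    (hm : m ≤ r ∨ finrank ℚ Y.X.H1 ≤ 2 * (m + r))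
    (f : (TM Ω Y) [⋀^Fin (2 * m)]→ₗ[Ω] Ω) (hf : IsTateClass Ω Y s m f) :
    Alg Ω Y (Fin (2 * m)) f := by
  classical
  have hne : Nonempty ((Y.X.prod Z.X).prod (single (kp p))).I := ⟨Sum.inr ()⟩
  obtain ⟨L, _, _, _, _, j, hj⟩ := exists_cm ((Y.X.prod Z.X).prod (single (kp p)))
  have hYj : Big Y.X j := fun i ψ => hj (Sum.inl (Sum.inl i)) ψ
  have hZj : Big Z.X j := fun i ψ => hj (Sum.inl (Sum.inr i)) ψ
  have hkp : BigA (kp p) j := fun ψ => hj (Sum.inr ()) ψ
  let jO : L →+* Ω := ((IsAlgClosed.lift : L →ₐ[ℚ] Ω) : L →+* Ω)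
  have hfinY := finite_wt j hYj
  let _ : Fintype (Wt Y.X L) := Fintype.ofFinite _
  obtain ⟨e, h1, h2⟩ := Pool.Agent.W67.TA.basis p ν Ω L j jO Y hYj
  refine Pool.Agent.W351.TA.expand p ν Ω L jO Y e h1 h2 _ f fun I hI => ?_
  have hbal := balanced jO Pool.Agent.W366.TA.val hYj e h1 h2 s m hs0 f hf I hI
  have hinj : Function.Injective I := by
    intro k l hkl
    by_contra hne
    exact hI (f.map_eq_zero_of_eq (fun k => e (I k)) (by rw [hkl]) hne)
  choose o ho using fun w => weight_cases hYj hZj hY w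
  have hho : ∀ (w : Wt Y.X L) g, tf p ν j (St j w) g = ext0 (tw p ν j Z.X) (o w) g := fun w g => by
    rw [ho w]
  have key : AlgM p ν j jO (Fin (2 * m)) fun k => tf p ν j (St j (I k)) := by
    have h3 : (fun k => tf p ν j (St j (I k))) = fun k => ext0 (tw p ν j Z.X) (o (I k)) :=
      funext fun k => ho (I k)
    rw [h3]
    refine @fam_mem p _ ν Ω _ _ L _ _ _ _ j jO Z hZj hkp (Fin (2 * m)) _ (fun k => o (I k)) (by
        rw [Fintype.card_fin]
        exact even_two_mul m) ?_
    rcases hm with hm | hm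
    · refine mem_short hZj hrel _ (fun g => ?_) (by
        rw [Fintype.card_fin]
        omega)
      rw [← hbal g]
      exact Finset.sum_congr rfl fun k _ => (hho _ g).symm
    · -- the complement
      let κ' := {w : Wt Y.X L // w ∉ Finset.univ.image I}
      have hcardT : Fintype.card (Wt Y.X L) = finrank ℚ Y.X.H1 := by
        rw [← Pool.Agent.W67.TA.card_wt j hYj, Nat.card_eq_fintype_card]
      have hsplit : ∀ g : Wt Y.X L → ℤ, ∑ w, g w = ∑ k, g (I k) + ∑ w : κ', g w.1 := by
        intro g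
        have h4 := Finset.sum_add_sum_compl (Finset.univ.image I) g
        rw [Finset.sum_image fun a _ b _ h => hinj h] at h4
        rw [← h4]
        congr 1
        refine Finset.sum_subtype _ (fun w => ?_) g
        rw [Finset.mem_compl]
      have hcard' : Fintype.card κ' ≤ 2 * r := by
        have h4 := Fintype.card_subtype_compl fun w : Wt Y.X L => w ∈ Finset.univ.image I
        have h5 : Fintype.card {w : Wt Y.X L // w ∈ Finset.univ.image I} = 2 * m := by
          rw [Fintype.card_coe, Finset.card_image_of_injective _ hinj, Finset.card_univ,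
            Fintype.card_fin]
        have h6 : Fintype.card κ' = Fintype.card (Wt Y.X L) -
          Fintype.card {w : Wt Y.X L // w ∈ Finset.univ.image I} := h4
        rw [h5] at h6
        omega
      -- the weights of all embeddings
      have hcw : ∀ w : Wt Y.X L, cw Y w ≠ w := fun w h => by
        have h5 : toEmb j Y (cw Y w) = toEmb j Y w := by rw [h]
        rw [toEmb_cw] at h5
        exact conjE_ne _ h5
      obtain ⟨ι, _, _, t, ht, hcard⟩ := Pool.Agent.V7H82.TG.Kern.exists_reps (c := cw Y (L := L))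
        cw_cw hcw
      have hpair : ∀ (w : Wt Y.X L) g, ext0 (tw p ν j Z.X) (o w) g +
          ext0 (tw p ν j Z.X) (o (cw Y w)) g = 0 := by
        intro w g
        rw [← hho, ← hho]
        have h5 : tw p ν j Y.X (cw Y w) g = (-tw p ν j Y.X w) g := congrFun (tw_cw w) g
        have h6 : tf p ν j (St j (cw Y w)) g = -tf p ν j (St j w) g := h5
        rw [h6, add_neg_cancel]
      have htot : (fun u => ∑ w, dlt j Z (o w) u) ∈ elmGroup Z := by
        have h5 : (fun u => ∑ w, dlt j Z (o w) u) =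
            ∑ i, fun u => dlt j Z (o (t i)) u + dlt j Z (o (cw Y (t i))) u := by
          funext u
          rw [Finset.sum_apply]
          exact sum_reps cw_cw hcw ht hcard fun w => dlt j Z (o w) u
        rw [h5]
        exact AddSubgroup.sum_mem _ fun i _ => mem_pair hZj _ _ (hpair (t i))
      have hcomp : (fun u => (nE j (fun w : κ' => o w.1) u : ℤ)) ∈ elmGroup Z := by
        refine mem_short hZj hrel _ (fun g => ?_) hcard'
        have h5 := hsplit fun w => ext0 (tw p ν j Z.X) (o w) g
        have h6 : ∑ w, ext0 (tw p ν j Z.X) (o w) g = 0 := by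
          rw [sum_reps cw_cw hcw ht hcard fun w => ext0 (tw p ν j Z.X) (o w) g]
          exact Finset.sum_eq_zero fun i _ => hpair (t i) g
        have h7 : ∑ k, ext0 (tw p ν j Z.X) (o (I k)) g = 0 := by
          rw [← hbal g]
          exact Finset.sum_congr rfl fun k _ => (hho _ g).symm
        rw [h6, h7, zero_add] at h5
        exact h5.symm
      have h8 : (fun u => (nE j (fun k => o (I k)) u : ℤ)) =
          (fun u => ∑ w, dlt j Z (o w) u) - fun u => (nE j (fun w : κ' => o w.1) u : ℤ) := by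
        funext u
        rw [Pi.sub_apply, nE_eq, nE_eq, hsplit fun w => dlt j Z (o w) u]
        ring
      rw [h8]
      exact AddSubgroup.sub_mem _ htot hcomp
  exact key Y hYj I fun k => rfl

end

end Pool.Agent.V7H82.LR
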